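import Pool.Agent.Helper89.AG.Rat
import Pool.Graph.R_seed8.Y124.StdC

set_option autoImplicit false
set_option linter.unusedSectionVars false

/-!
# Convergent power series and local algebraic independence of ratios
-/

open Filter Topology PowerSeries

namespace Pool.Agent.Helper89.AG

/-- the power series `φ` converges absolutely to `f` on the disc of radius `r` -/
def Conv (r : ℝ) (φ : ℂ⟦X⟧) (f : ℂ → ℂ) : Prop :=
  ∀ z : ℂ, ‖z‖ < r → (Summable fun n => ‖PowerSeries.coeff n φ * z ^ n‖) ∧ ∑' n, PowerSeries.coeff n φ * z ^ n = f z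

section

variable {r : ℝ} {φ ψ : ℂ⟦X⟧} {f g : ℂ → ℂ}

theorem Conv.C (r : ℝ) (c : ℂ) : Conv r (PowerSeries.C c) (fun _ => c) := by
  intro z _
  have h : ∀ n, PowerSeries.coeff n (PowerSeries.C c : ℂ⟦X⟧) * z ^ n = if n = 0 then c else 0 := by
    intro n
    rw [PowerSeries.coeff_C]
    split_ifs with h
    · subst h
      simp
    · simp
  refine ⟨?_, ?_⟩
  · refine summable_of_ne_finset_zero (s := {0}) fun n hn => ?_
    rw [h, if_neg (by simpa using hn), norm_zero]
  · simp_rw [h]
    exact tsum_ite_eq 0 fun _ => c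

theorem Conv.X (r : ℝ) : Conv r (PowerSeries.X : ℂ⟦X⟧) (fun z => z) := by
  intro z _
  have h : ∀ n, PowerSeries.coeff n (PowerSeries.X : ℂ⟦X⟧) * z ^ n = if n = 1 then z else 0 := by
    intro n
    rw [PowerSeries.coeff_X]
    split_ifs with h
    · subst h
      simp
    · simp
  refine ⟨?_, ?_⟩
  · refine summable_of_ne_finset_zero (s := {1}) fun n hn => ?_
    rw [h, if_neg (by simpa using hn), norm_zero]
  · simp_rw [h]
    exact tsum_ite_eq 1 fun _ => z

theorem Conv.add (hf : Conv r φ f) (hg : Conv r ψ g) : Conv r (φ + ψ) (fun z => f z + g z) := by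
  intro z hz
  obtain ⟨h1, h2⟩ := hf z hz
  obtain ⟨h3, h4⟩ := hg z hz
  have h5 : ∀ n, PowerSeries.coeff n (φ + ψ) * z ^ n = PowerSeries.coeff n φ * z ^ n + PowerSeries.coeff n ψ * z ^ n := by
    intro n
    rw [map_add, add_mul]
  simp_rw [h5]
  exact ⟨(h1.add h3).of_nonneg_of_le (fun _ => norm_nonneg _) fun _ => norm_add_le _ _,
    by rw [h1.of_norm.tsum_add h3.of_norm, h2, h4]⟩

theorem Conv.mul (hf : Conv r φ f) (hg : Conv r ψ g) : Conv r (φ * ψ) (fun z => f z * g z) := by
  intro z hz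
  obtain ⟨h1, h2⟩ := hf z hz
  obtain ⟨h3, h4⟩ := hg z hz
  have h5 : ∀ n, PowerSeries.coeff n (φ * ψ) * z ^ n = ∑ kl ∈ Finset.HasAntidiagonal.antidiagonal n,
      (PowerSeries.coeff kl.1 φ * z ^ kl.1) * (PowerSeries.coeff kl.2 ψ * z ^ kl.2) := by
    intro n
    rw [PowerSeries.coeff_mul, Finset.sum_mul]
    refine Finset.sum_congr rfl fun kl hkl => ?_
    have h6 : z ^ n = z ^ kl.1 * z ^ kl.2 := by
      rw [← pow_add, Finset.HasAntidiagonal.mem_antidiagonal.1 hkl]
    rw [h6]
    ring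
  have h6 := summable_norm_sum_mul_antidiagonal_of_summable_norm h1 h3
  have h7 := tsum_mul_tsum_eq_tsum_sum_antidiagonal_of_summable_norm h1 h3
  constructor
  · refine h6.congr fun n => ?_
    rw [h5 n]
  · rw [tsum_congr h5, ← h7, h2, h4]

theorem Conv.pow (hf : Conv r φ f) (k : ℕ) : Conv r (φ ^ k) (fun z => f z ^ k) := by
  induction k with
  | zero =>
    simp only [pow_zero]
    exact Conv.C r 1
  | succ k ih =>
    simp only [pow_succ]
    exact ih.mul hf

theorem Conv.sum {ι : Type} (s : Finset ι) {φ : ι → ℂ⟦X⟧} {f : ι → ℂ → ℂ} (h : ∀ i ∈ s, Conv r (φ i) (f i)) :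
    Conv r (∑ i ∈ s, φ i) (fun z => ∑ i ∈ s, f i z) := by
  classical
  induction s using Finset.induction_on with
  | empty =>
    simp only [Finset.sum_empty]
    have := Conv.C r 0
    rwa [map_zero] at this
  | insert i s hi ih =>
    simp only [Finset.sum_insert hi]
    exact (h i (Finset.mem_insert_self i s)).add (ih fun j hj => h j (Finset.mem_insert_of_mem hj))

theorem Conv.prod {ι : Type} (s : Finset ι) {φ : ι → ℂ⟦X⟧} {f : ι → ℂ → ℂ} (h : ∀ i ∈ s, Conv r (φ i) (f i)) :
    Conv r (∏ i ∈ s, φ i) (fun z => ∏ i ∈ s, f i z) := by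
  classical
  induction s using Finset.induction_on with
  | empty =>
    simp only [Finset.prod_empty]
    have := Conv.C r 1
    rwa [map_one] at this
  | insert i s hi ih =>
    simp only [Finset.prod_insert hi]
    exact (h i (Finset.mem_insert_self i s)).mul (ih fun j hj => h j (Finset.mem_insert_of_mem hj))

/-- the expansion as a power series in the sense of Mathlib -/
theorem Conv.hasFPowerSeriesOnBall (hr : 0 < r) (hf : Conv r φ f) :
    HasFPowerSeriesOnBall f (FormalMultilinearSeries.ofScalars ℂ fun n => PowerSeries.coeff n φ) 0 (ENNReal.ofReal r) := by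
  refine ⟨?_, ?_, ?_⟩
  · refine ENNReal.le_of_forall_nnreal_lt fun s hs => ?_
    have hs' : (s : ℝ) < r := by
      rw [← ENNReal.ofReal_coe_nnreal] at hs
      exact (ENNReal.ofReal_lt_ofReal_iff hr).1 hs
    apply FormalMultilinearSeries.le_radius_of_summable_norm
    have h1 := (hf (s : ℝ) (by simpa using hs')).1
    refine h1.congr fun n => ?_
    rw [FormalMultilinearSeries.ofScalars_norm, norm_mul, norm_pow]
    simp
  · simpa using hr
  · intro y hy
    have hy' : ‖y‖ < r := by
      rw [Metric.mem_eball, edist_zero_right, ← ofReal_norm, ENNReal.ofReal_lt_ofReal_iff hr] at hy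
      exact hy
    obtain ⟨h1, h2⟩ := hf y hy'
    rw [zero_add, ← h2]
    refine h1.of_norm.hasSum.congr_fun ?_
    intro n
    simp [mul_comm]

theorem Conv.analyticAt (hf : Conv r φ f) {z : ℂ} (hz : ‖z‖ < r) : AnalyticAt ℂ f z := by
  have hr : 0 < r := lt_of_le_of_lt (norm_nonneg _) hz
  refine (hf.hasFPowerSeriesOnBall hr).analyticAt_of_mem ?_
  rw [Metric.mem_eball, edist_zero_right, ← ofReal_norm, ENNReal.ofReal_lt_ofReal_iff hr]
  exact hz

theorem Conv.eq_zero (hr : 0 < r) (hf : Conv r φ f) (h0 : ∀ z : ℂ, ‖z‖ < r → f z = 0) : φ = 0 := by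
  have h1 := (hf.hasFPowerSeriesOnBall hr).hasFPowerSeriesAt
  have h2 : HasFPowerSeriesAt f (0 : FormalMultilinearSeries ℂ ℂ ℂ) (0 : ℂ) := by
    refine HasFPowerSeriesAt.congr (f := fun _ : ℂ => (0 : ℂ)) ?_ ?_
    · exact HasFPowerSeriesOnBall.hasFPowerSeriesAt (r := 1) ⟨by simp, by simp, fun {y} _ => by simp [hasSum_zero]⟩
    · filter_upwards [Metric.ball_mem_nhds (0 : ℂ) hr] with z hz
      exact (h0 z (by simpa using hz)).symm
  have h3 := h1.eq_formalMultilinearSeries h2
  refine PowerSeries.ext fun n => ?_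
  have h4 := congrArg (fun p : FormalMultilinearSeries ℂ ℂ ℂ => p.coeff n) h3
  have h5 : (0 : FormalMultilinearSeries ℂ ℂ ℂ).coeff n = 0 := rfl
  simp only [h5, FormalMultilinearSeries.coeff_ofScalars] at h4
  simpa using h4

end

section

variable {κ : Type} [Fintype κ] [DecidableEq κ]

/-- local independence of the ratios -/
theorem locInd_ratio (a b : κ → ℕ → ℚ) (haz : ∀ i n, ∃ z : ℤ, a i n = z) (ha0 : ∀ i, a i 0 = 1)
    (hcore : ∀ P : MvPolynomial κ ℤ⟦X⟧, MvPolynomial.eval₂ emb (fun i => PowerSeries.mk (b i)) P = 0 → P = 0)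
    {r : ℝ} (FA FB : κ → ℂ → ℂ) (hA : ∀ i, Conv r (PowerSeries.map (algebraMap ℚ ℂ) (PowerSeries.mk (a i))) (FA i))
    (hB : ∀ i, Conv r (PowerSeries.map (algebraMap ℚ ℂ) (PowerSeries.mk (b i))) (FB i))
    {t0 : ℂ} (ht0 : ‖t0‖ < r) (hA0 : ∀ i, FA i t0 ≠ 0) :
    Pool.Agent.Y124.LocInd (𝕜 := ℂ) (fun i t => FB i t / FA i t) t0 := by
  intro P hP
  have hr : 0 < r := lt_of_le_of_lt (norm_nonneg _) ht0
  set d := P.totalDegree with hd
  set Φ : ℂ⟦X⟧ := ∑ m ∈ P.support, PowerSeries.C (P.coeff m) * PowerSeries.map (algebraMap ℚ ℂ) (mono a b d m) with hΦ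
  set G : ℂ → ℂ := fun t => ∑ m ∈ P.support, P.coeff m * (t ^ m none * ∏ i, (FB i t ^ m (some i) * FA i t ^ (d - m (some i))))
    with hG
  have hle : ∀ m ∈ P.support, ∀ i, m (some i) ≤ d := fun m hm i =>
    (Finsupp.le_degree (some i) m).trans (MvPolynomial.le_totalDegree hm)
  have hconv : Conv r Φ G := by
    refine Conv.sum _ fun m _ => (Conv.C r _).mul ?_
    rw [mono, map_mul, map_pow, PowerSeries.map_X, map_prod]
    refine ((Conv.X r).pow _).mul (Conv.prod _ fun i _ => ?_)
    rw [map_mul, map_pow, map_pow]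
    exact ((hB i).pow _).mul ((hA i).pow _)
  have hGan : AnalyticOnNhd ℂ G (Metric.ball 0 r) := fun z hz => hconv.analyticAt (by simpa using hz)
  have hev : ∀ᶠ t in 𝓝 t0, G t = 0 := by
    have hne : ∀ᶠ t in 𝓝 t0, ∀ i, FA i t ≠ 0 := by
      rw [eventually_all]
      exact fun i => ((hA i).analyticAt ht0).continuousAt.eventually_ne (hA0 i)
    filter_upwards [hP, hne] with t h1 h2
    have h3 : G t = (∏ i, FA i t ^ d) *
        MvPolynomial.eval (fun o : Option κ => o.elim t fun i => FB i t / FA i t) P := by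
      rw [MvPolynomial.eval_eq', Finset.mul_sum, hG]
      refine Finset.sum_congr rfl fun m hm => ?_
      rw [Fintype.prod_option]
      simp only [Option.elim]
      have h4 : ∏ i, (FB i t ^ m (some i) * FA i t ^ (d - m (some i))) =
          (∏ i, FA i t ^ d) * ∏ i, (FB i t / FA i t) ^ m (some i) := by
        rw [← Finset.prod_mul_distrib]
        refine Finset.prod_congr rfl fun i _ => ?_
        rw [div_pow]
        have h5 : FA i t ^ d = FA i t ^ (d - m (some i)) * FA i t ^ m (some i) := by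
          rw [← pow_add, Nat.sub_add_cancel (hle m hm i)]
        rw [h5]
        have h6 := pow_ne_zero (m (some i)) (h2 i)
        field_simp
      rw [h4]
      ring
    rw [h3, h1, mul_zero]
  have hG0 : Set.EqOn G 0 (Metric.ball 0 r) :=
    hGan.eqOn_zero_of_preconnected_of_eventuallyEq_zero (convex_ball (0 : ℂ) r).isPreconnected (by simpa using ht0) hev
  have hΦ0 : Φ = 0 := hconv.eq_zero hr fun z hz => hG0 (by simpa using hz)
  have hc := ratio_complex a b haz ha0 hcore d P.support (fun m => P.coeff m) hΦ0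
  refine MvPolynomial.ext _ _ fun m => ?_
  rw [MvPolynomial.coeff_zero]
  by_cases hm : m ∈ P.support
  · exact hc m hm
  · exact MvPolynomial.notMem_support_iff.1 hm

end

end Pool.Agent.Helper89.AG
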