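import Pool.Agent.Helper89.AG.Seq
import Pool.Agent.Helper89.AG.Conv
import Pool.Graph.R_pool_sql_team_seeded_b677cdb8.E8helper51.AZ.P3
import Pool.Graph.R_pool_sql_team_seeded_b677cdb8.E8helper20.AZ.Fin
import Pool.Graph.R_pool_sql_team_seeded_b677cdb8.E8helper48.AZ.Ap2I

set_option autoImplicit false
set_option linter.unusedSectionVars false

/-!
# Apéry's numbers for `ζ(2)` and `ζ(3)`
-/

open MeasureTheory Set Filter Topology
open scoped PowerSeries

namespace Pool.Agent.Helper89.AG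

open Pool.Agent.E8helper42.AZ Pool.Agent.E8helper20.AZ

/-- the polynomial of the recurrence for `ζ(3)` -/
def P3 (n : ℕ) : ℤ := 34 * ((n : ℤ) + 1) ^ 3 + 51 * ((n : ℤ) + 1) ^ 2 + 27 * ((n : ℤ) + 1) + 5

/-- the polynomial of the recurrence for `ζ(2)` -/
def P2 (n : ℕ) : ℤ := -(11 * ((n : ℤ) + 1) ^ 2 + 11 * ((n : ℤ) + 1) + 3)

/-- the solution of the recurrence for `ζ(3)` with initial values `x`, `y` -/
def sol3 (x y : ℚ) : ℕ → ℚ
  | 0 => x
  | 1 => y
  | n + 2 => ((34 * ((n : ℚ) + 1) ^ 3 + 51 * ((n : ℚ) + 1) ^ 2 + 27 * ((n : ℚ) + 1) + 5) * sol3 x y (n + 1) -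
      ((n : ℚ) + 1) ^ 3 * sol3 x y n) / ((n : ℚ) + 2) ^ 3

/-- the solution of the recurrence for `ζ(2)` with initial values `x`, `y` -/
def sol2 (x y : ℚ) : ℕ → ℚ
  | 0 => x
  | 1 => y
  | n + 2 => (-(11 * ((n : ℚ) + 1) ^ 2 + 11 * ((n : ℚ) + 1) + 3) * sol2 x y (n + 1) +
      ((n : ℚ) + 1) ^ 2 * sol2 x y n) / ((n : ℚ) + 2) ^ 2

theorem rec3 (x y : ℚ) : Rec 3 P3 (-1) (sol3 x y) := by
  intro n
  have h : ((n : ℚ) + 2) ^ 3 ≠ 0 := by positivity
  rw [sol3, P3]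
  push_cast
  field_simp
  ring

theorem rec2 (x y : ℚ) : Rec 2 P2 1 (sol2 x y) := by
  intro n
  have h : ((n : ℚ) + 2) ^ 2 ≠ 0 := by positivity
  rw [sol2, P2]
  push_cast
  field_simp

theorem aq_eq_sol : ∀ n, E8helper51.AZ.aq n = sol3 1 5 n := by
  refine Rec.eq (s := 3) (P := P3) (e := -1) ?_ (rec3 1 5) E8helper51.AZ.aq0 E8helper51.AZ.aq1
  intro n
  have h := E8helper51.AZ.aq_rec n
  rw [cP] at h
  rw [P3]
  push_cast
  linarith

theorem bq_eq_sol : ∀ n, E8helper51.AZ.bq n = sol3 0 6 n := by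
  refine Rec.eq (s := 3) (P := P3) (e := -1) ?_ (rec3 0 6) E8helper51.AZ.bq0 E8helper51.AZ.bq1
  intro n
  have h := E8helper51.AZ.bq_rec n
  rw [cP] at h
  rw [P3]
  push_cast
  linarith

theorem a2_eq_sol : ∀ n, E8helper48.AZ.a2 n = sol2 1 (-3) n := by
  refine Rec.eq (s := 2) (P := P2) (e := 1) ?_ (rec2 1 (-3)) E8helper48.AZ.a2_0 E8helper48.AZ.a2_1
  intro n
  have h := (E8helper48.AZ.recs n).1
  rw [P2]
  push_cast
  linarith

theorem b2_eq_sol : ∀ n, E8helper48.AZ.b2 n = sol2 0 (-5) n := by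
  refine Rec.eq (s := 2) (P := P2) (e := 1) ?_ (rec2 0 (-5)) E8helper48.AZ.b2_0 E8helper48.AZ.b2_1
  intro n
  have h := (E8helper48.AZ.recs n).2
  rw [P2]
  push_cast
  linarith

theorem a3_int (n : ℕ) : ∃ z : ℤ, sol3 1 5 n = z := by
  rw [← aq_eq_sol]
  exact ⟨_, E8helper51.AZ.aq_eq n⟩

theorem a2_int (n : ℕ) : ∃ z : ℤ, sol2 1 (-3) n = z := by
  rw [← a2_eq_sol, E8helper48.AZ.a2]
  choose f hf using E8helper51.AZ.cc_int
  choose g hg using E8helper48.AZ.dd_int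
  refine ⟨∑ k ∈ Finset.range (n + 1), f n k * g n k, ?_⟩
  push_cast
  exact Finset.sum_congr rfl fun k _ => by rw [hf, hg]

/-! ### the two constants and the sequences as families: `0` for `ζ(2)`, `1` for `ζ(3)` -/

/-- the denominators -/
def av : Fin 2 → ℕ → ℚ := ![sol2 1 (-3), sol3 1 5]

/-- the numerators -/
def bv : Fin 2 → ℕ → ℚ := ![sol2 0 (-5), sol3 0 6]

theorem av_int (i : Fin 2) (n : ℕ) : ∃ z : ℤ, av i n = z := by
  fin_cases i
  · exact a2_int n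
  · exact a3_int n

theorem av_zero (i : Fin 2) : av i 0 = 1 := by
  fin_cases i <;> rfl

theorem bv_int (p : ℕ) [hp : Fact p.Prime] (i : Fin 2) : ∀ n < p, padicNorm p (bv i n) ≤ 1 := by
  fin_cases i
  · exact (rec2 0 (-5)).int_below (p := p) (by simp [sol2])
      (by
        have : sol2 0 (-5) 1 = ((-5 : ℤ) : ℚ) := by simp [sol2]
        rw [this]
        exact padicNorm.of_int _)
  · exact (rec3 0 6).int_below (p := p) (by simp [sol3])
      (by
        have : sol3 0 6 1 = ((6 : ℤ) : ℚ) := by simp [sol3]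
        rw [this]
        exact padicNorm.of_int _)

/-- the orders of the poles -/
def ord : Fin 2 → ℕ := ![2, 3]

theorem ord_inj : Function.Injective ord := by
  intro i j hij
  fin_cases i <;> fin_cases j <;> simp_all [ord]

theorem bv_pole (p : ℕ) [hp : Fact p.Prime] (hp7 : 7 ≤ p) (i : Fin 2) : padicNorm p (bv i p) = (p : ℚ) ^ ord i := by
  fin_cases i
  · refine (Rec.pole (s := 2) (by norm_num) (Or.inl rfl) (rec2 1 (-3)) (rec2 0 (-5)) a2_int rfl rfl
      (β := -5) (by simp [sol2]) (p := p) ?_)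
    intro h
    have h1 := Int.natAbs_dvd_natAbs.2 h
    have h2 : p ∣ 5 := by simpa using h1
    exact absurd (Nat.le_of_dvd (by norm_num) h2) (by omega)
  · refine (Rec.pole (s := 3) (by norm_num) (Or.inr rfl) (rec3 1 5) (rec3 0 6) a3_int rfl rfl
      (β := 6) (by simp [sol3]) (p := p) ?_)
    intro h
    have h1 := Int.natAbs_dvd_natAbs.2 h
    have h2 : p ∣ 6 := by simpa using h1
    exact absurd (Nat.le_of_dvd (by norm_num) h2) (by omega)

theorem core_bv {κ : Type} [Fintype κ] [DecidableEq κ] {ι : κ → Fin 2} (hι : Function.Injective ι)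
    (P : MvPolynomial κ ℤ⟦X⟧) (h : MvPolynomial.eval₂ emb (fun i => PowerSeries.mk (bv (ι i))) P = 0) : P = 0 := by
  refine core (fun i => PowerSeries.mk (bv (ι i))) 7 (fun i => ord (ι i)) (fun i j hij => hι (ord_inj hij)) ?_ ?_ ?_ P h
  · intro i
    generalize ι i = j
    fin_cases j <;> simp [ord]
  · intro p hp hp7 i n hn
    rw [PowerSeries.coeff_mk]
    exact bv_int p (ι i) n hn
  · intro p hp hp7 i
    rw [PowerSeries.coeff_mk]
    exact bv_pole p hp7 (ι i)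

/-! ### growth and convergence -/

/-- the growth constant -/
noncomputable def al : ℝ := 17 + 12 * √2

/-- the radius of convergence `(√2 - 1) ^ 4` -/
noncomputable def ra : ℝ := (√2 - 1) ^ 4

theorem ra_eq : ra = 17 - 12 * √2 := by
  have h : √2 ^ 2 = 2 := Real.sq_sqrt (by norm_num)
  rw [ra]
  have h3 : √2 ^ 3 = 2 * √2 := by rw [pow_succ, h]
  have h4 : √2 ^ 4 = 4 := by rw [show (4 : ℕ) = 2 * 2 by norm_num, pow_mul, h]; norm_num
  ring_nf
  rw [h, h3, h4]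
  ring

theorem al_mul_ra : al * ra = 1 := by
  have h : √2 ^ 2 = 2 := Real.sq_sqrt (by norm_num)
  rw [ra_eq, al]
  linear_combination (-144) * h

theorem al_eq : al ^ 2 - 34 * al + 1 = 0 := by
  have h : √2 ^ 2 = 2 := Real.sq_sqrt (by norm_num)
  rw [al]
  linear_combination 144 * h

theorem sqrt2_lb : (1.4142 : ℝ) < √2 := by
  rw [Real.lt_sqrt (by norm_num)]
  norm_num

theorem sqrt2_ub : √2 < (1.4143 : ℝ) := by
  rw [Real.sqrt_lt' (by norm_num)]
  norm_num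

theorem ra_pos : 0 < ra := by
  rw [ra_eq]
  linarith [sqrt2_ub]

theorem ra_lt : ra < 1 / 33 := by
  rw [ra_eq]
  linarith [sqrt2_lb]

theorem al_ge : 33 ≤ al := by
  rw [al]
  linarith [sqrt2_lb]

theorem a3_pos_bound (n : ℕ) : 0 ≤ (sol3 1 5 n : ℝ) ∧ (sol3 1 5 n : ℝ) ≤ al ^ n := by
  have h := growth3 (rec3 1 5) al_eq (by linarith [al_ge]) (n₀ := 0) (by
    simp only [sol3]
    norm_num
    linarith [al_ge])
  simp only [zero_add] at h
  refine ⟨(h n).1, ?_⟩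
  induction n with
  | zero => simp [sol3]
  | succ n ih =>
    rw [pow_succ, mul_comm]
    exact (h n).2.2.trans (mul_le_mul_of_nonneg_left ih (by linarith [al_ge]))

theorem b3_pos_bound (n : ℕ) : 0 ≤ (sol3 0 6 n : ℝ) ∧ (sol3 0 6 n : ℝ) ≤ al ^ n := by
  have h := growth3 (rec3 0 6) al_eq (by linarith [al_ge]) (n₀ := 1) (by
    simp only [sol3]
    norm_num
    linarith [al_ge])
  rcases n with _ | n
  · simp [sol3]
  · have h1 := h n
    rw [add_comm 1 n] at h1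
    refine ⟨h1.1, ?_⟩
    clear h1
    induction n with
    | zero =>
      simp only [sol3, zero_add, pow_one]
      norm_num
      linarith [al_ge]
    | succ n ih =>
      rw [pow_succ, mul_comm]
      have h2 := (h n).2.2
      rw [add_comm 1 n] at h2
      exact h2.trans (mul_le_mul_of_nonneg_left ih (by linarith [al_ge]))

theorem a2_bound (n : ℕ) : |(sol2 1 (-3) n : ℝ)| ≤ 12 ^ n :=
  growth2 (rec2 1 (-3)) (by simp [sol2]) (by simp [sol2]; norm_num) n

theorem b2_bound (n : ℕ) : |(sol2 0 (-5) n : ℝ)| ≤ 12 ^ n :=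
  growth2 (rec2 0 (-5)) (by simp [sol2]) (by simp [sol2]; norm_num) n

/-- the generating function -/
noncomputable def gen (u : ℕ → ℚ) (z : ℂ) : ℂ := ∑' n, (u n : ℂ) * z ^ n

theorem conv_gen {u : ℕ → ℚ} {c r : ℝ} (hc : 0 < c) (hcr : c * r ≤ 1) (hu : ∀ n, |(u n : ℝ)| ≤ c ^ n) :
    Conv r (PowerSeries.map (algebraMap ℚ ℂ) (PowerSeries.mk u)) (gen u) := by
  intro z hz
  refine ⟨?_, ?_⟩
  · have h1 : c * ‖z‖ < 1 := lt_of_lt_of_le (mul_lt_mul_of_pos_left hz hc) hcr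
    refine (summable_geometric_of_lt_one (by positivity) h1).of_nonneg_of_le (fun _ => norm_nonneg _) fun n => ?_
    rw [PowerSeries.coeff_map, PowerSeries.coeff_mk, norm_mul, norm_pow, mul_pow, eq_ratCast]
    refine mul_le_mul_of_nonneg_right ?_ (by positivity)
    have h2 : ‖((u n : ℚ) : ℂ)‖ = |(u n : ℝ)| := by
      rw [← Complex.ofReal_ratCast, Complex.norm_real, Real.norm_eq_abs]
    rw [h2]
    exact hu n
  · rw [gen]
    exact tsum_congr fun n => by rw [PowerSeries.coeff_map, PowerSeries.coeff_mk, eq_ratCast]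

theorem conv_av (i : Fin 2) : Conv ra (PowerSeries.map (algebraMap ℚ ℂ) (PowerSeries.mk (av i))) (gen (av i)) := by
  fin_cases i
  · exact conv_gen (c := 12) (by norm_num) (by linarith [ra_lt]) a2_bound
  · refine conv_gen (c := al) (by linarith [al_ge]) al_mul_ra.le fun n => ?_
    exact (abs_of_nonneg (a3_pos_bound n).1).le.trans (a3_pos_bound n).2

theorem conv_bv (i : Fin 2) : Conv ra (PowerSeries.map (algebraMap ℚ ℂ) (PowerSeries.mk (bv i))) (gen (bv i)) := by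
  fin_cases i
  · exact conv_gen (c := 12) (by norm_num) (by linarith [ra_lt]) b2_bound
  · refine conv_gen (c := al) (by linarith [al_ge]) al_mul_ra.le fun n => ?_
    exact (abs_of_nonneg (b3_pos_bound n).1).le.trans (b3_pos_bound n).2

/-- `A(z) ≠ 0` for `ζ(2)` -/
theorem gen_a2_ne {z : ℂ} (hz : ‖z‖ < ra) : gen (av 0) z ≠ 0 := by
  intro h0
  have h1 := conv_av 0 z hz
  have hc : ∀ n, PowerSeries.coeff n (PowerSeries.map (algebraMap ℚ ℂ) (PowerSeries.mk (av 0))) * z ^ n =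
      (av 0 n : ℂ) * z ^ n := fun n => by rw [PowerSeries.coeff_map, PowerSeries.coeff_mk, eq_ratCast]
  have hs : Summable fun n => ‖(av 0 n : ℂ) * z ^ n‖ := h1.1.congr fun n => by rw [hc]
  have h2 : gen (av 0) z = 1 + ∑' n, (av 0 (n + 1) : ℂ) * z ^ (n + 1) := by
    rw [gen, hs.of_norm.tsum_eq_zero_add, av_zero]
    simp
  have hx : 12 * ‖z‖ ≤ 4 / 11 := by linarith [ra_lt]
  have hx0 : 0 ≤ 12 * ‖z‖ := by positivity
  have h3 : ‖∑' n, (av 0 (n + 1) : ℂ) * z ^ (n + 1)‖ ≤ 4 / 7 := by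
    have h4 : ∀ n, ‖(av 0 (n + 1) : ℂ) * z ^ (n + 1)‖ ≤ 4 / 11 * (4 / 11 : ℝ) ^ n := by
      intro n
      rw [norm_mul, norm_pow]
      have e1 : ‖((av 0 (n + 1) : ℚ) : ℂ)‖ = |(av 0 (n + 1) : ℝ)| := by
        rw [← Complex.ofReal_ratCast, Complex.norm_real, Real.norm_eq_abs]
      rw [e1]
      calc |(av 0 (n + 1) : ℝ)| * ‖z‖ ^ (n + 1) ≤ 12 ^ (n + 1) * ‖z‖ ^ (n + 1) :=
            mul_le_mul_of_nonneg_right (a2_bound (n + 1)) (by positivity)
        _ = (12 * ‖z‖) ^ (n + 1) := by rw [mul_pow]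
        _ ≤ (4 / 11) ^ (n + 1) := pow_le_pow_left₀ hx0 hx _
        _ = 4 / 11 * (4 / 11 : ℝ) ^ n := by rw [pow_succ, mul_comm]
    have h5 : HasSum (fun n : ℕ => 4 / 11 * (4 / 11 : ℝ) ^ n) (4 / 7) := by
      have h6 := (hasSum_geometric_of_lt_one (r := (4 / 11 : ℝ)) (by norm_num) (by norm_num)).mul_left (4 / 11)
      have e : (4 / 11 : ℝ) * (1 - 4 / 11)⁻¹ = 4 / 7 := by norm_num
      rwa [e] at h6
    exact tsum_of_norm_bounded h5 h4
  rw [h0] at h2
  have h6 : ∑' n, (av 0 (n + 1) : ℂ) * z ^ (n + 1) = -1 := by linear_combination -h2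
  rw [h6, norm_neg, norm_one] at h3
  norm_num at h3

/-- the real generating function -/
noncomputable def genR (u : ℕ → ℚ) (x : ℝ) : ℝ := ∑' n, (u n : ℝ) * x ^ n

theorem gen_ofReal (u : ℕ → ℚ) (x : ℝ) : gen u (x : ℂ) = (genR u x : ℂ) := by
  rw [gen, genR, Complex.ofReal_tsum]
  exact tsum_congr fun n => by push_cast; rfl

theorem summ_real {u : ℕ → ℚ} {c x : ℝ} (hx0 : 0 ≤ x) (hcx : c * x < 1) (hc : 0 < c) (hu : ∀ n, |(u n : ℝ)| ≤ c ^ n) :
    Summable fun n => (u n : ℝ) * x ^ n := by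
  refine Summable.of_norm ?_
  refine (summable_geometric_of_lt_one (by positivity) hcx).of_nonneg_of_le (fun _ => norm_nonneg _) fun n => ?_
  rw [norm_mul, norm_pow, mul_pow, Real.norm_eq_abs, Real.norm_of_nonneg hx0]
  exact mul_le_mul_of_nonneg_right (hu n) (by positivity)

theorem mul_lt_one_of {c x : ℝ} (hc : 0 < c) (hcr : c * ra ≤ 1) (hx : x < ra) : c * x < 1 :=
  lt_of_lt_of_le (mul_lt_mul_of_pos_left hx hc) hcr

theorem summ_av (i : Fin 2) {x : ℝ} (hx0 : 0 ≤ x) (hx : x < ra) : Summable fun n => (av i n : ℝ) * x ^ n := by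
  fin_cases i
  · exact summ_real hx0 (c := 12) (mul_lt_one_of (by norm_num) (by linarith [ra_lt]) hx) (by norm_num) a2_bound
  · refine summ_real hx0 (c := al) (mul_lt_one_of (by linarith [al_ge]) al_mul_ra.le hx) (by linarith [al_ge]) fun n => ?_
    exact (abs_of_nonneg (a3_pos_bound n).1).le.trans (a3_pos_bound n).2

theorem summ_bv (i : Fin 2) {x : ℝ} (hx0 : 0 ≤ x) (hx : x < ra) : Summable fun n => (bv i n : ℝ) * x ^ n := by
  fin_cases i
  · exact summ_real hx0 (c := 12) (mul_lt_one_of (by norm_num) (by linarith [ra_lt]) hx) (by norm_num) b2_bound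
  · refine summ_real hx0 (c := al) (mul_lt_one_of (by linarith [al_ge]) al_mul_ra.le hx) (by linarith [al_ge]) fun n => ?_
    exact (abs_of_nonneg (b3_pos_bound n).1).le.trans (b3_pos_bound n).2

/-- `A(x) > 0` for `ζ(3)` -/
theorem genR_a3_pos {x : ℝ} (hx0 : 0 ≤ x) (hx : x < ra) : 0 < genR (av 1) x := by
  have h := summ_av 1 hx0 hx
  rw [genR, h.tsum_eq_zero_add]
  have h1 : 0 ≤ ∑' n, (av 1 (n + 1) : ℝ) * x ^ (n + 1) :=
    tsum_nonneg fun n => mul_nonneg (a3_pos_bound (n + 1)).1 (by positivity)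
  rw [av_zero]
  norm_num
  linarith

theorem gen_av_ne (i : Fin 2) {x : ℝ} (hx0 : 0 ≤ x) (hx : x < ra) : gen (av i) (x : ℂ) ≠ 0 := by
  fin_cases i
  · refine gen_a2_ne ?_
    rw [Complex.norm_real, Real.norm_of_nonneg hx0]
    exact hx
  · change gen (av 1) (x : ℂ) ≠ 0
    rw [gen_ofReal]
    exact_mod_cast (genR_a3_pos hx0 hx).ne'

/-! ### the integrals -/

/-- the triple integral -/
noncomputable def J3 (t : ℝ) : ℝ := 1 / 2 * ∫ p : ℝ × ℝ × ℝ in Set.Ioo 0 1 ×ˢ Set.Ioo 0 1 ×ˢ Set.Ioo 0 1,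
  1 / (1 - (1 - p.1 * p.2.1) * p.2.2 - t * (p.1 * p.2.1 * p.2.2 * (1 - p.1) * (1 - p.2.1) * (1 - p.2.2)))

/-- the double integral -/
noncomputable def J2 (t : ℝ) : ℝ := ∫ p : ℝ × ℝ in Set.Ioo 0 1 ×ˢ Set.Ioo 0 1,
  1 / (1 - p.1 * p.2 - t * (p.1 * p.2 * (1 - p.1) * (1 - p.2)))

theorem kern_eq (t : ℝ) {D : ℝ} (hD : D ≠ 0) (N : ℝ) : 1 / (D - t * N) = (1 - t * (N / D))⁻¹ * (1 / D) := by
  rw [one_div, one_div, ← mul_inv]
  congr 1
  field_simp

theorem J3_sum {t : ℝ} (ht0 : 0 ≤ t) (ht1 : t < 1) : J3 t = ∑' n : ℕ, Jn n * t ^ n := by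
  set f : ℕ → ℝ × ℝ × ℝ → ℝ := fun n p => (t * beu p.1 p.2.1 p.2.2) ^ n * K p with hf
  have hbd : ∀ n, ∀ x ∈ Ioo (0 : ℝ) 1, ∀ y ∈ Ioo (0 : ℝ) 1, ∀ z ∈ Ioo (0 : ℝ) 1,
      |f n (x, y, z)| ≤ t ^ n * K (x, y, z) := by
    intro n x hx y hy z hz
    have hK := K_pos hx hy hz
    have hb := beu_mem hx hy hz
    simp only [hf]
    rw [abs_mul, abs_of_pos hK, abs_pow, abs_mul, abs_of_nonneg ht0]
    refine mul_le_mul_of_nonneg_right (pow_le_pow_left₀ (by positivity) ?_ _) hK.le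
    calc t * |beu x y z| ≤ t * 1 := mul_le_mul_of_nonneg_left hb ht0
      _ = t := mul_one _
  have hmeas : ∀ n, Measurable (f n) := fun n => ((beu_meas.const_mul t).pow_const n).mul K_meas
  have hint : ∀ n, Integrable (f n) T := fun n => dom (hmeas n) _ (hbd n)
  have hsum : Summable fun n => ∫ p, ‖f n p‖ ∂T := by
    refine Summable.of_nonneg_of_le (fun n => integral_nonneg fun p => norm_nonneg _) (fun n => ?_)
      ((summable_geometric_of_lt_one ht0 ht1).mul_right (∫ p, K p ∂T))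
    rw [← MeasureTheory.integral_const_mul]
    refine integral_mono_ae (hint n).norm (K_int.const_mul _) ?_
    filter_upwards [ae_T] with p hp
    obtain ⟨x, y, z⟩ := p
    exact hbd n x hp.1 y hp.2.1 z hp.2.2
  have h := integral_tsum_of_summable_integral_norm hint hsum
  have e1 : ∀ n, ∫ p, f n p ∂T = 2 * (Jn n * t ^ n) := by
    intro n
    have : ∀ p : ℝ × ℝ × ℝ, f n p = t ^ n * (beu p.1 p.2.1 p.2.2 ^ n * K p) := fun p => by
      simp only [hf]
      ring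
    simp only [this]
    rw [MeasureTheory.integral_const_mul, int_beu]
    ring
  simp only [e1] at h
  rw [tsum_mul_left] at h
  have h2 : ∫ p : ℝ × ℝ × ℝ in Set.Ioo 0 1 ×ˢ Set.Ioo 0 1 ×ˢ Set.Ioo 0 1,
      1 / (1 - (1 - p.1 * p.2.1) * p.2.2 - t * (p.1 * p.2.1 * p.2.2 * (1 - p.1) * (1 - p.2.1) * (1 - p.2.2))) =
      ∫ p, ∑' n, f n p ∂T := by
    rw [← T_eq]
    refine integral_congr_ae ?_
    filter_upwards [ae_T] with p hp
    obtain ⟨x, y, z⟩ := p
    have hx := hp.1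
    have hy := hp.2.1
    have hz := hp.2.2
    have hb := beu_mem hx hy hz
    have hden := den_pos hx hy hz
    simp only [hf]
    rw [tsum_mul_right, tsum_geometric_of_norm_lt_one (by
      rw [Real.norm_eq_abs, abs_mul, abs_of_nonneg ht0]
      calc t * |beu x y z| ≤ t * 1 := mul_le_mul_of_nonneg_left hb ht0
        _ < 1 := by linarith)]
    have h3 : 1 - (1 - x * y) * z ≠ 0 := by
      have := hden
      simp only at this
      exact this.ne'
    unfold K beu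
    simp only
    exact kern_eq t h3 _
  rw [J3, h2, ← h]
  ring

theorem Jn2_zero_ne : Jn2 0 ≠ 0 := by
  rw [E8helper48.AZ.Jn2_eq, E8helper48.AZ.J2_ab, E8helper48.AZ.a2_0, E8helper48.AZ.b2_0]
  have := Real.pi_pos
  push_cast
  rw [one_mul, sub_zero]
  positivity

theorem kern_int : Integrable (fun p : ℝ × ℝ => 1 / (1 - p.1 * p.2))
    ((volume : Measure (ℝ × ℝ)).restrict (Set.Ioo 0 1 ×ˢ Set.Ioo 0 1)) := by
  by_contra hn
  have h1 : Jn2 0 = 0 := by
    rw [Jn2]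
    simp only [pow_zero]
    exact integral_undef hn
  exact Jn2_zero_ne h1

theorem beu2_mem {x y : ℝ} (hx : x ∈ Ioo (0 : ℝ) 1) (hy : y ∈ Ioo (0 : ℝ) 1) : |beu2 x y| ≤ 1 := by
  obtain ⟨hx0, hx1⟩ := hx
  obtain ⟨hy0, hy1⟩ := hy
  have h1 : 0 < 1 - x * y := by nlinarith
  have h2 : 0 ≤ x * y * (1 - x) * (1 - y) := by
    have a1 : 0 ≤ 1 - x := by linarith
    have a2 : 0 ≤ 1 - y := by linarith
    positivity
  rw [beu2, abs_of_nonneg (div_nonneg h2 h1.le), div_le_one h1]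
  have h3 : x * y * (1 - x) * (1 - y) ≤ 1 - x := by
    have a1 : x * y ≤ 1 := by nlinarith
    have a2 : 0 ≤ x * y := by positivity
    have a3 : x * y * (1 - y) ≤ 1 := by nlinarith
    have a4 : 0 ≤ 1 - x := by linarith
    nlinarith
  nlinarith

theorem J2_sum {t : ℝ} (ht0 : 0 ≤ t) (ht1 : t < 1) : J2 t = ∑' n : ℕ, Jn2 n * t ^ n := by
  set μ := (volume : Measure (ℝ × ℝ)).restrict (Set.Ioo 0 1 ×ˢ Set.Ioo 0 1) with hμ
  have hae : ∀ᵐ p ∂μ, p.1 ∈ Ioo (0 : ℝ) 1 ∧ p.2 ∈ Ioo (0 : ℝ) 1 := by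
    rw [hμ]
    exact (ae_restrict_mem (measurableSet_Ioo.prod measurableSet_Ioo)).mono fun p hp => ⟨hp.1, hp.2⟩
  set f : ℕ → ℝ × ℝ → ℝ := fun n p => (t * beu2 p.1 p.2) ^ n * (1 / (1 - p.1 * p.2)) with hf
  have hbd : ∀ n, ∀ x ∈ Ioo (0 : ℝ) 1, ∀ y ∈ Ioo (0 : ℝ) 1, |f n (x, y)| ≤ t ^ n * (1 / (1 - x * y)) := by
    intro n x hx y hy
    have hb := beu2_mem hx hy
    have hK : 0 < 1 / (1 - x * y) := by
      have : 0 < 1 - x * y := by nlinarith [hx.1, hx.2, hy.1, hy.2]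
      positivity
    simp only [hf]
    rw [abs_mul, abs_of_pos hK, abs_pow, abs_mul, abs_of_nonneg ht0]
    refine mul_le_mul_of_nonneg_right (pow_le_pow_left₀ (by positivity) ?_ _) hK.le
    calc t * |beu2 x y| ≤ t * 1 := mul_le_mul_of_nonneg_left hb ht0
      _ = t := mul_one _
  have hmeas0 : Measurable fun p : ℝ × ℝ => beu2 p.1 p.2 := by
    unfold beu2
    fun_prop
  have hmeas : ∀ n, Measurable (f n) := fun n => by
    simp only [hf]
    fun_prop
  have hint : ∀ n, Integrable (f n) μ := fun n => by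
    refine (kern_int.const_mul (t ^ n)).mono' (hmeas n).aestronglyMeasurable ?_
    filter_upwards [hae] with p hp
    obtain ⟨x, y⟩ := p
    exact hbd n x hp.1 y hp.2
  have hsum : Summable fun n => ∫ p, ‖f n p‖ ∂μ := by
    refine Summable.of_nonneg_of_le (fun n => integral_nonneg fun p => norm_nonneg _) (fun n => ?_)
      ((summable_geometric_of_lt_one ht0 ht1).mul_right (∫ p, 1 / (1 - p.1 * p.2) ∂μ))
    rw [← MeasureTheory.integral_const_mul]
    refine integral_mono_ae (hint n).norm (kern_int.const_mul _) ?_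
    filter_upwards [hae] with p hp
    obtain ⟨x, y⟩ := p
    exact hbd n x hp.1 y hp.2
  have h := integral_tsum_of_summable_integral_norm hint hsum
  have e1 : ∀ n, ∫ p, f n p ∂μ = Jn2 n * t ^ n := by
    intro n
    have : ∀ p : ℝ × ℝ, f n p = t ^ n * (beu2 p.1 p.2 ^ n / (1 - p.1 * p.2)) := fun p => by
      simp only [hf]
      ring
    simp only [this]
    rw [MeasureTheory.integral_const_mul, Jn2, mul_comm]
  simp only [e1] at h
  rw [J2, h]
  refine integral_congr_ae ?_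
  filter_upwards [hae] with p hp
  obtain ⟨x, y⟩ := p
  have hx := hp.1
  have hy := hp.2
  have hb := beu2_mem hx hy
  have h3 : 1 - x * y ≠ 0 := by
    have : 0 < 1 - x * y := by nlinarith [hx.1, hx.2, hy.1, hy.2]
    exact this.ne'
  simp only [hf]
  rw [tsum_mul_right, tsum_geometric_of_norm_lt_one (by
    rw [Real.norm_eq_abs, abs_mul, abs_of_nonneg ht0]
    calc t * |beu2 x y| ≤ t * 1 := mul_le_mul_of_nonneg_left hb ht0
      _ < 1 := by linarith)]
  unfold beu2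
  exact kern_eq t h3 _

/-- the linear form for `ζ(3)` -/
theorem J3_eq {t : ℝ} (ht0 : 0 ≤ t) (ht : t < ra) : J3 t = z3 * genR (av 1) t - genR (bv 1) t := by
  rw [J3_sum ht0 (by linarith [ra_lt]), genR, genR, ← tsum_mul_left,
    ← ((summ_av 1 ht0 ht).mul_left z3).tsum_sub (summ_bv 1 ht0 ht)]
  refine tsum_congr fun n => ?_
  rw [E8helper51.AZ.Jn_ab, aq_eq_sol, bq_eq_sol]
  change _ = z3 * ((sol3 1 5 n : ℝ) * t ^ n) - (sol3 0 6 n : ℝ) * t ^ n
  ring

/-- the linear form for `ζ(2)` -/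
theorem J2_eq {t : ℝ} (ht0 : 0 ≤ t) (ht : t < ra) : J2 t = Real.pi ^ 2 / 6 * genR (av 0) t - genR (bv 0) t := by
  rw [J2_sum ht0 (by linarith [ra_lt]), genR, genR, ← tsum_mul_left,
    ← ((summ_av 0 ht0 ht).mul_left (Real.pi ^ 2 / 6)).tsum_sub (summ_bv 0 ht0 ht)]
  refine tsum_congr fun n => ?_
  rw [E8helper48.AZ.Jn2_eq, E8helper48.AZ.J2_ab, a2_eq_sol, b2_eq_sol]
  change _ = Real.pi ^ 2 / 6 * ((sol2 1 (-3) n : ℝ) * t ^ n) - (sol2 0 (-5) n : ℝ) * t ^ n
  ring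

end Pool.Agent.Helper89.AG
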