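import Pool.Agent.Helper8.EI.Crit2

set_option autoImplicit false
set_option linter.unusedSectionVars false

/-!
# The criterion on an interval (after the modules of `Helper8`, where the domain is a half plane)
-/

open MvPolynomial NumberField

namespace Pool.Agent.Helper89.AG

open Pool.Agent.Y120 (HtLe)
open Pool.Agent.Y124 (sV sV_apply sV_inj exists_sV' eval_eq_box ExcNF excNF LocInd oneV_of)
open Pool.Agent.Helper8.EI

/-- transfer at almost all tuples -/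
theorem transferU {κ h : Type} [Fintype κ] [DecidableEq κ] [Fintype h] [DecidableEq h] (f : κ → ℂ → ℂ)
    (L : Set ℂ) (hL : IsCompact L) (han : ∀ i, ∀ t ∈ L, AnalyticAt ℂ (f i) t) (hind : ∀ t ∈ L, LocInd f t)
    (m n d : ℕ) (A ε : ℝ) (hε : 0 < ε) :
    ∃ (B : ℕ) (C T₀ : ℝ), 0 ≤ C ∧ 2 ≤ T₀ ∧ ∀ (K : Type) [Field K] [NumberField K], Module.finrank ℚ K ≤ m →
      ∀ (io : K →+* ℂ) (c : h → ℂ) (T : ℝ), T₀ ≤ T →
      {x : Fin n → K | (∀ j, HtLe K T (x j) ∧ io (x j) ∈ L) ∧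
        ¬ GoodAt d B (T ^ A) T io c (fun z : Fin n × κ => f z.2 (io (x z.1)))}.Finite ∧
      (({x : Fin n → K | (∀ j, HtLe K T (x j) ∧ io (x j) ∈ L) ∧
        ¬ GoodAt d B (T ^ A) T io c (fun z : Fin n × κ => f z.2 (io (x z.1)))}.ncard : ℕ) : ℝ) ≤
        C * T ^ ε * (({x : K | HtLe K T x ∧ io x ∈ L}.ncard : ℝ)) ^ (n - 1) := by
  obtain ⟨B₁, C, T₁, hC, hT₁, H⟩ := excNF (h := h → Fin (d + 1)) m n d (fun t i => f i t) L
    (fun g => oneV_of g f L hL han hind) A ε hε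
  set V := Fin n × κ with hV
  set N : ℝ := (((d + 1) ^ Fintype.card V : ℕ) : ℝ) with hN
  refine ⟨⌈B₁⌉₊ + 1 + d * Fintype.card V, C, max T₁ N, hC, le_max_of_le_left hT₁, fun K _ _ hK io c T hT => ?_⟩
  have hTT₁ : T₁ ≤ T := (le_max_left _ _).trans hT
  have hTN : N ≤ T := (le_max_right _ _).trans hT
  have hT2 : 2 ≤ T := hT₁.trans hTT₁
  have hT0 : 0 < T := by linarith
  obtain ⟨H1, H2⟩ := H K hK io (fun e : h → Fin (d + 1) => ∏ i, c i ^ (e i : ℕ)) T hTT₁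
  have hsub : {x : Fin n → K | (∀ j, HtLe K T (x j) ∧ io (x j) ∈ L) ∧
        ¬ GoodAt d (⌈B₁⌉₊ + 1 + d * Fintype.card V) (T ^ A) T io c (fun z : Fin n × κ => f z.2 (io (x z.1)))} ⊆
      ExcNF n d K io (fun e : h → Fin (d + 1) => ∏ i, c i ^ (e i : ℕ)) (fun t i => f i t) L A B₁ T := by
    rintro x ⟨hx, hbad⟩
    rw [GoodAt] at hbad
    push Not at hbad
    obtain ⟨P, hPd, hPc, w, hw⟩ := hbad
    refine ⟨hx, PP d io c P, PP_degreeOf d io c P, fun s => ?_, ?_⟩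
    · by_cases hs : ∃ z : V → Fin (d + 1), sV z = s
      · obtain ⟨z, rfl⟩ := hs
        refine ⟨fun e => P.coeff (sV (Sum.elim z e)), fun e φ => hPc _ φ, ?_⟩
        rw [PP_coeff]
        rfl
      · push Not at hs
        refine ⟨fun _ => 0, fun e φ => ?_, ?_⟩
        · simp only [map_zero, norm_zero]
          positivity
        · rw [PP_coeff_of_not d io c P s hs]
          simp
    · obtain ⟨z₀, -, hz₀⟩ := Finset.exists_max_image (Finset.univ : Finset (V → Fin (d + 1)))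
        (fun z => ‖cz d io c P z‖) ⟨fun _ => 0, Finset.mem_univ _⟩
      set M := max 1 ‖w‖ with hM
      have hM1 : 1 ≤ M := le_max_left _ _
      have hM0 : 0 < M := by linarith
      have hup : ‖evc io (Sum.elim w c) P‖ ≤ N * (‖cz d io c P z₀‖ * M ^ (d * Fintype.card V)) := by
        rw [evc_eq io c P hPd w]
        refine (norm_sum_le _ _).trans ?_
        have h1 : ∀ z ∈ (Finset.univ : Finset (V → Fin (d + 1))), ‖cz d io c P z * ∏ i, w i ^ (z i : ℕ)‖ ≤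
            ‖cz d io c P z₀‖ * M ^ (d * Fintype.card V) := by
          intro z hz
          rw [norm_mul]
          refine mul_le_mul (hz₀ z hz) ?_ (norm_nonneg _) (norm_nonneg _)
          rw [norm_prod, pow_mul, ← Finset.card_univ, ← Finset.prod_const]
          refine Finset.prod_le_prod (fun i _ => norm_nonneg _) fun i _ => ?_
          rw [norm_pow]
          calc ‖w i‖ ^ (z i : ℕ) ≤ M ^ (z i : ℕ) :=
                pow_le_pow_left₀ (norm_nonneg _) ((norm_le_pi_norm w i).trans (le_max_right _ _)) _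
            _ ≤ M ^ d := pow_le_pow_right₀ hM1 (Nat.lt_succ_iff.1 (z i).2)
        refine (Finset.sum_le_card_nsmul _ _ _ h1).trans (le_of_eq ?_)
        rw [nsmul_eq_mul, Finset.card_univ, Fintype.card_fun, Fintype.card_fin, hN]
      refine ⟨sV z₀, ?_, ?_⟩
      · rw [PP_coeff]
        intro h0
        rw [h0, norm_zero, zero_mul, mul_zero] at hup
        have : 0 ≤ (T * M) ^ (⌈B₁⌉₊ + 1 + d * Fintype.card V) *
            ‖evc io (Sum.elim (fun z : Fin n × κ => f z.2 (io (x z.1))) c) P‖ := by positivity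
        linarith
      · have h1 : MvPolynomial.aeval (fun x_1 : Fin n × κ => (fun t i => f i t) (io (x x_1.1)) x_1.2) (PP d io c P) =
            evc io (Sum.elim (fun z : Fin n × κ => f z.2 (io (x z.1))) c) P := PP_aeval io c P hPd _
        rw [h1, PP_coeff]
        set y := ‖evc io (Sum.elim (fun z : Fin n × κ => f z.2 (io (x z.1))) c) P‖ with hy
        have hy0 : 0 ≤ y := norm_nonneg _
        have h2 : (T * M) ^ (⌈B₁⌉₊ + 1 + d * Fintype.card V) * y ≤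
            T * (‖cz d io c P z₀‖ * M ^ (d * Fintype.card V)) :=
          hw.le.trans (hup.trans (mul_le_mul_of_nonneg_right hTN (by positivity)))
        have h3 : T ^ (⌈B₁⌉₊ : ℕ) * T * M ^ (d * Fintype.card V) ≤ (T * M) ^ (⌈B₁⌉₊ + 1 + d * Fintype.card V) := by
          rw [mul_pow]
          have e1 : T ^ (⌈B₁⌉₊ : ℕ) * T ≤ T ^ (⌈B₁⌉₊ + 1 + d * Fintype.card V) := by
            rw [← pow_succ]
            exact pow_le_pow_right₀ (by linarith) (by omega)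
          have e2 : M ^ (d * Fintype.card V) ≤ M ^ (⌈B₁⌉₊ + 1 + d * Fintype.card V) :=
            pow_le_pow_right₀ hM1 (by omega)
          exact mul_le_mul e1 e2 (by positivity) (by positivity)
        have h4 : T ^ (⌈B₁⌉₊ : ℕ) * T * M ^ (d * Fintype.card V) * y ≤
            T * (‖cz d io c P z₀‖ * M ^ (d * Fintype.card V)) := (mul_le_mul_of_nonneg_right h3 hy0).trans h2
        have h5 : T ^ (⌈B₁⌉₊ : ℕ) * y ≤ ‖cz d io c P z₀‖ := by
          have hpos : 0 < T * M ^ (d * Fintype.card V) := by positivity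
          refine le_of_mul_le_mul_left ?_ hpos
          calc T * M ^ (d * Fintype.card V) * (T ^ (⌈B₁⌉₊ : ℕ) * y)
              = T ^ (⌈B₁⌉₊ : ℕ) * T * M ^ (d * Fintype.card V) * y := by ring
            _ ≤ T * (‖cz d io c P z₀‖ * M ^ (d * Fintype.card V)) := h4
            _ = T * M ^ (d * Fintype.card V) * ‖cz d io c P z₀‖ := by ring
        have h6 : T ^ B₁ ≤ T ^ (⌈B₁⌉₊ : ℕ) := by
          rw [← Real.rpow_natCast]
          exact Real.rpow_le_rpow_of_exponent_le (by linarith) (Nat.le_ceil B₁)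
        have h7 : T ^ B₁ * y ≤ ‖cz d io c P z₀‖ := (mul_le_mul_of_nonneg_right h6 hy0).trans h5
        rw [Real.rpow_neg hT0.le, inv_mul_eq_div, le_div_iff₀ (Real.rpow_pos_of_pos hT0 _), mul_comm]
        exact h7
  exact ⟨H1.subset hsub, le_trans (by exact_mod_cast Set.ncard_le_ncard hsub H1) H2⟩

section

variable {κ h : Type} [Fintype κ] [DecidableEq κ] [Fintype h] [DecidableEq h] {f : κ → ℂ → ℂ} {Z : κ → ℂ} {c : h → ℂ}
  {Y : ℚ → κ → ℂ}

/-- the number of exceptions -/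
theorem countU {r : ℝ} (han : ∀ i, ∀ x : ℝ, 0 < x → x < r → AnalyticAt ℂ (f i) x)
    (hind : ∀ x : ℝ, 0 < x → x < r → LocInd f (x : ℂ))
    {C₁ : ℝ} {E D : ℕ} (hC₁ : 1 ≤ C₁)
    (hdata : ∀ q : ℚ, 0 < q → (q : ℝ) < r → HasData Z c (fun k => f k (q : ℂ)) (Y q) (C₁ * (hq q : ℝ) ^ E) D)
    (hAI : AlgebraicIndependent ℚ (Sum.elim Z c)) (d A : ℕ) (a b ε : ℝ) (ha : 0 < a) (hb : b < r) (hε : 0 < ε) :
    ∃ C : ℝ, ∀ T : ℕ, 1 ≤ T →
      ({q : ℚ | a ≤ q ∧ (q : ℝ) ≤ b ∧ hq q ≤ T ∧ Relat d ((T : ℝ) ^ A) (vals f Y c q)}.ncard : ℝ) ≤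
        C * (T : ℝ) ^ ε := by
  set cd := Fintype.card (κ ⊕ (κ ⊕ h)) with hcd
  set d' := cd * (d * (D + 1)) with hd'
  set K₀ : ℝ := ((d + 1) ^ cd : ℕ) * (3 * C₁) ^ (d * cd) with hK₀
  set e := A + E * (d * cd) with he
  set L : Set ℂ := Complex.ofReal '' Set.Icc a b with hL
  have hLc : IsCompact L := isCompact_Icc.image Complex.continuous_ofReal
  have hLan : ∀ i, ∀ t ∈ L, AnalyticAt ℂ (f i) t := by
    rintro i _ ⟨x, hx, rfl⟩
    exact han i x (lt_of_lt_of_le ha hx.1) (lt_of_le_of_lt hx.2 hb)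
  have hLind : ∀ t ∈ L, LocInd f t := by
    rintro _ ⟨x, hx, rfl⟩
    exact hind x (lt_of_lt_of_le ha hx.1) (lt_of_le_of_lt hx.2 hb)
  obtain ⟨B, C, T₀, hC, hT₀, H⟩ := transferU (h := κ ⊕ h) f L hLc hLan hLind 1 1 d' ((e + 1 : ℕ) : ℝ) ε hε
  set T₁ : ℝ := max T₀ (max 1 K₀) with hT₁
  have hfin := finite_hq T₁
  refine ⟨C + ({q : ℚ | (hq q : ℝ) ≤ T₁}.ncard : ℝ), fun T hT => ?_⟩
  have hT1 : (1 : ℝ) ≤ T := by exact_mod_cast hT
  have hTε : 1 ≤ (T : ℝ) ^ ε := Real.one_le_rpow hT1 hε.le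
  have hTε0 : 0 ≤ (T : ℝ) ^ ε := by linarith
  set S := {q : ℚ | a ≤ q ∧ (q : ℝ) ≤ b ∧ hq q ≤ T ∧ Relat d ((T : ℝ) ^ A) (vals f Y c q)} with hS
  rcases le_total (T : ℝ) T₁ with hle | hge
  · have h1 : S ⊆ {q : ℚ | (hq q : ℝ) ≤ T₁} := by
      rintro q ⟨-, -, h4, -⟩
      exact le_trans (by exact_mod_cast h4) hle
    have h2 : (S.ncard : ℝ) ≤ ({q : ℚ | (hq q : ℝ) ≤ T₁}.ncard : ℝ) := by
      exact_mod_cast Set.ncard_le_ncard h1 hfin
    have h3 : (0 : ℝ) ≤ ({q : ℚ | (hq q : ℝ) ≤ T₁}.ncard : ℝ) := Nat.cast_nonneg _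
    nlinarith [mul_nonneg hC hTε0]
  · have hTT₀ : T₀ ≤ T := (le_max_left _ _).trans hge
    have hTK : K₀ ≤ T := ((le_max_right _ _).trans (le_max_right _ _)).trans hge
    obtain ⟨H1, H2⟩ := H ℚ (by rw [Module.finrank_self]) (algebraMap ℚ ℂ) (Sum.elim Z c) T hTT₀
    set Bad := {x : Fin 1 → ℚ | (∀ j, HtLe ℚ (T : ℝ) (x j) ∧ algebraMap ℚ ℂ (x j) ∈ L) ∧
        ¬ GoodAt d' B ((T : ℝ) ^ ((e + 1 : ℕ) : ℝ)) T (algebraMap ℚ ℂ) (Sum.elim Z c)
          (fun z : Fin 1 × κ => f z.2 (algebraMap ℚ ℂ (x z.1)))} with hBad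
    have hsub : S ⊆ (fun x : Fin 1 → ℚ => x 0) '' Bad := by
      rintro q ⟨ha', hb', hqT, P, hP0, hPd, hPc, hPv⟩
      refine ⟨fun _ => q, ⟨fun _ => ⟨htLe_of_hq (by exact_mod_cast hqT), ⟨(q : ℝ), ⟨ha', hb'⟩, ?_⟩⟩, fun hgood => ?_⟩, rfl⟩
      · simp
      have hq0 : (0 : ℚ) < q := by
        have : (0 : ℝ) < q := lt_of_lt_of_le ha ha'
        exact_mod_cast this
      have hqT' : (hq q : ℝ) ≤ T := by exact_mod_cast hqT
      have hM : 1 ≤ C₁ * (hq q : ℝ) ^ E := by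
        have : (1 : ℝ) ≤ (hq q : ℝ) ^ E := one_le_pow₀ (by exact_mod_cast hq_pos q)
        nlinarith
      obtain ⟨Q, N, hQ0, hQd, hQc, hQv⟩ := relmove hM (hdata q hq0 (lt_of_le_of_lt hb' hb)) (H := (T : ℝ) ^ A) (by positivity) P hP0
        (fun i => (degreeOf_le_totalDegree P i).trans hPd) hPc
      apply hQ0
      have hQb : ∀ s, |((Q.coeff s : ℤ) : ℝ)| ≤ (T : ℝ) ^ (e + 1) := by
        intro s
        refine (hQc s).trans ?_
        have e1 : (3 * (C₁ * (hq q : ℝ) ^ E)) ^ (d * cd) ≤ (3 * (C₁ * (T : ℝ) ^ E)) ^ (d * cd) := by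
          refine pow_le_pow_left₀ (by positivity) ?_ _
          have : (hq q : ℝ) ^ E ≤ (T : ℝ) ^ E := pow_le_pow_left₀ (by positivity) hqT' _
          nlinarith
        calc ((d + 1) ^ cd : ℕ) * (T : ℝ) ^ A * (3 * (C₁ * (hq q : ℝ) ^ E)) ^ (d * cd)
            ≤ ((d + 1) ^ cd : ℕ) * (T : ℝ) ^ A * (3 * (C₁ * (T : ℝ) ^ E)) ^ (d * cd) :=
              mul_le_mul_of_nonneg_left e1 (by positivity)
          _ = K₀ * (T : ℝ) ^ e := by
              rw [hK₀, he, pow_add, ← mul_assoc 3, mul_pow (3 * C₁), ← pow_mul]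
              ring
          _ ≤ T * (T : ℝ) ^ e := mul_le_mul_of_nonneg_right hTK (by positivity)
          _ = (T : ℝ) ^ (e + 1) := by rw [pow_succ]; ring
      set g : κ ⊕ (κ ⊕ h) → (Fin 1 × κ) ⊕ (κ ⊕ h) := Sum.map (fun k => ((0 : Fin 1), k)) id with hg
      have hginj : Function.Injective g := by
        rw [hg]
        exact Sum.map_injective.2 ⟨fun a b hab => (Prod.ext_iff.1 hab).2, Function.injective_id⟩
      set Q' : MvPolynomial ((Fin 1 × κ) ⊕ (κ ⊕ h)) (𝓞 ℚ) := map (Int.castRingHom (𝓞 ℚ)) (rename g Q) with hQ'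
      have hev : ∀ w : Fin 1 × κ → ℂ, evc (algebraMap ℚ ℂ) (Sum.elim w (Sum.elim Z c)) Q' =
          aeval (Sum.elim (fun k => w (0, k)) (Sum.elim Z c)) Q := by
        intro w
        rw [evc, hQ', eval₂_map, eval₂_rename, aeval_def]
        congr 1
        funext i
        rcases i with k | i
        · rfl
        · rfl
      have hzero : ∀ w : κ → ℂ, aeval (Sum.elim w (Sum.elim Z c)) Q = 0 := by
        intro w
        have h1 := hgood Q' ?_ ?_ (fun z => w z.2)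
        · rw [hev, hev] at h1
          have h2 : aeval (Sum.elim (fun k => f k (q : ℂ)) (Sum.elim Z c)) Q = 0 := by
            rw [hQv]
            have : aeval (Sum.elim (fun k => f k (q : ℂ)) (Sum.elim (Y q) c)) P = 0 := hPv
            rw [this, mul_zero]
          have h3 : aeval (Sum.elim (fun k => f k ((algebraMap ℚ ℂ) q)) (Sum.elim Z c)) Q = 0 := h2
          rw [h3, norm_zero, mul_zero] at h1
          exact norm_le_zero_iff.1 h1
        · intro i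
          refine (degreeOf_le_totalDegree _ _).trans (le_trans ?_ hQd)
          rw [hQ']
          refine le_trans ?_ (totalDegree_rename_le g Q)
          exact Finset.sup_mono (support_map_subset _ _)
        · intro s φ
          rw [Real.rpow_natCast, hQ', coeff_map]
          have h5 : φ (((Int.castRingHom (𝓞 ℚ)) ((rename g Q).coeff s) : 𝓞 ℚ) : ℚ) =
              (((rename g Q).coeff s : ℤ) : ℂ) := by
            have : (((Int.castRingHom (𝓞 ℚ)) ((rename g Q).coeff s) : 𝓞 ℚ) : ℚ) = (((rename g Q).coeff s : ℤ) : ℚ) := by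
              simp
            rw [this, map_intCast]
          rw [h5, Complex.norm_intCast]
          by_cases hs : ∃ u, Finsupp.mapDomain g u = s
          · obtain ⟨u, rfl⟩ := hs
            rw [coeff_rename_mapDomain g hginj]
            exact hQb u
          · rw [coeff_rename_eq_zero g Q s fun u hu => absurd ⟨u, hu⟩ hs]
            simp only [Int.cast_zero, abs_zero]
            positivity
      exact zero_of_forall hAI Q hzero
    have h1 : (S.ncard : ℝ) ≤ (Bad.ncard : ℝ) := by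
      exact_mod_cast (Set.ncard_le_ncard hsub (H1.image _)).trans (Set.ncard_image_le H1)
    have h2 : (Bad.ncard : ℝ) ≤ C * (T : ℝ) ^ ε := by
      refine H2.trans (le_of_eq ?_)
      simp
    have h3 : (0 : ℝ) ≤ ({q : ℚ | (hq q : ℝ) ≤ T₁}.ncard : ℝ) := Nat.cast_nonneg _
    nlinarith [mul_nonneg h3 hTε0]

/-- if the constants are dependent then all points are exceptional -/
theorem allrelU {r : ℝ} (hr1 : r ≤ 1) {C₁ : ℝ} {E D : ℕ} (hC₁ : 1 ≤ C₁)
    (hdata : ∀ q : ℚ, 0 < q → (q : ℝ) < r → HasData Z c (fun k => f k (q : ℂ)) (Y q) (C₁ * (hq q : ℝ) ^ E) D)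
    (hAI : ¬ AlgebraicIndependent ℚ (Sum.elim Z c)) :
    ∃ d A : ℕ, ∀ q : ℚ, 0 < q → (q : ℝ) < r → Relat d ((hq q : ℝ) ^ A) (vals f Y c q) := by
  obtain ⟨p, hp0, hpv⟩ := int_relation hAI
  set P : MvPolynomial (κ ⊕ (κ ⊕ h)) ℤ := rename Sum.inr p with hP
  have hP0 : P ≠ 0 := by
    intro h0
    exact hp0 (rename_injective _ Sum.inr_injective (by rw [← hP, h0, map_zero]))
  set d := P.totalDegree with hd
  set H := L1 P with hH
  set cd := Fintype.card (κ ⊕ (κ ⊕ h)) with hcd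
  set K₀ : ℝ := ((d + 1) ^ cd : ℕ) * H * (3 * C₁) ^ (d * cd) with hK₀
  obtain ⟨n₀, hn₀⟩ := pow_unbounded_of_one_lt K₀ (one_lt_two (α := ℝ))
  refine ⟨cd * (d * (D + 1)), E * (d * cd) + n₀, fun q hq0 hq1 => ?_⟩
  have h2 : (2 : ℝ) ≤ hq q := by
    have hne : q ≠ 1 := by
      rintro rfl
      norm_num at hq1
      linarith
    exact_mod_cast two_le_hq hq0 hne
  have hM : 1 ≤ C₁ * (hq q : ℝ) ^ E := by
    have : (1 : ℝ) ≤ (hq q : ℝ) ^ E := one_le_pow₀ (by linarith)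
    nlinarith
  obtain ⟨Q, N, hQ0, hQd, hQc, hQv⟩ := relmove hM (hdata q hq0 hq1).swap (H := H) (L1_nonneg _) P hP0
    (fun i => degreeOf_le_totalDegree P i) (coeff_le_L1 P)
  refine ⟨Q, hQ0, hQd, fun s => (hQc s).trans ?_, ?_⟩
  · calc ((d + 1) ^ cd : ℕ) * H * (3 * (C₁ * (hq q : ℝ) ^ E)) ^ (d * cd) = K₀ * (hq q : ℝ) ^ (E * (d * cd)) := by
          rw [hK₀, ← mul_assoc 3, mul_pow (3 * C₁), ← pow_mul]
          ring
      _ ≤ 2 ^ n₀ * (hq q : ℝ) ^ (E * (d * cd)) := mul_le_mul_of_nonneg_right hn₀.le (by positivity)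
      _ ≤ (hq q : ℝ) ^ n₀ * (hq q : ℝ) ^ (E * (d * cd)) :=
          mul_le_mul_of_nonneg_right (pow_le_pow_left₀ (by norm_num) h2 _) (by positivity)
      _ = (hq q : ℝ) ^ (E * (d * cd) + n₀) := by rw [pow_add]; ring
  · have h3 : aeval (Sum.elim (fun k => f k (q : ℂ)) (Sum.elim Z c)) P = 0 := by
      rw [hP, aeval_rename]
      exact hpv
    rw [h3, mul_zero] at hQv
    exact hQv

/-- the points `(1 + 1 / n) / M` -/
theorem exists_unrelatedU {r : ℝ} {M : ℕ} (hM1 : 1 ≤ M) (hMr : 2 / (M : ℝ) < r) {d A : ℕ} {C : ℝ}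
    (hC : ∀ T : ℕ, 1 ≤ T →
      ({q : ℚ | (1 / M : ℝ) ≤ q ∧ (q : ℝ) ≤ 2 / M ∧ hq q ≤ T ∧ Relat d ((T : ℝ) ^ A) (vals f Y c q)}.ncard : ℝ) ≤
        C * (T : ℝ) ^ (1 / 2 : ℝ)) :
    ∃ q : ℚ, 0 < q ∧ (q : ℝ) < r ∧ ¬ Relat d ((hq q : ℝ) ^ A) (vals f Y c q) := by
  by_contra hall
  push Not at hall
  have hM0 : (0 : ℝ) < M := by exact_mod_cast hM1
  have hM0' : (0 : ℚ) < M := by exact_mod_cast hM1
  obtain ⟨N, hN⟩ := exists_nat_gt (|C| + 1)
  -- `T = (2 M N) ^ 2`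
  set T : ℕ := (2 * M * N) ^ 2 with hT
  have hNpos : (0 : ℝ) < N := lt_of_le_of_lt (by positivity) hN
  have hN1 : 1 ≤ N := by
    have : (0 : ℕ) < N := by exact_mod_cast hNpos
    exact this
  have hT1 : 1 ≤ T := Nat.one_le_pow _ _ (by positivity)
  have h1 := hC T hT1
  set S := {q : ℚ | (1 / M : ℝ) ≤ q ∧ (q : ℝ) ≤ 2 / M ∧ hq q ≤ T ∧ Relat d ((T : ℝ) ^ A) (vals f Y c q)} with hS
  have hfin : S.Finite := (finite_hq T).subset fun q h => by
    have : hq q ≤ T := h.2.2.1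
    change (hq q : ℝ) ≤ T
    exact_mod_cast this
  -- the points
  set g : ℕ → ℚ := fun n => (1 + 1 / ((n : ℚ) + 1)) / M with hg
  have hginj : Function.Injective g := by
    intro a b hab
    simp only [hg] at hab
    have h2 : (1 : ℚ) / ((a : ℚ) + 1) = 1 / ((b : ℚ) + 1) := by
      have h3 := (div_left_inj' hM0'.ne').1 hab
      linarith
    have ha : ((a : ℚ) + 1) ≠ 0 := by positivity
    have hb : ((b : ℚ) + 1) ≠ 0 := by positivity
    rw [div_eq_div_iff ha hb] at h2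
    have : (a : ℚ) = b := by linarith
    exact_mod_cast this
  have hgh : ∀ n : ℕ, hq (g n) ≤ M * (n + 2) := by
    intro n
    have h2 : g n = ((n + 2 : ℤ) : ℚ) / ((M * (n + 1) : ℤ) : ℚ) := by
      simp only [hg]
      have ha : ((n : ℚ) + 1) ≠ 0 := by positivity
      push_cast
      field_simp
      ring
    have hpos : (0 : ℤ) < M * (n + 1) := by positivity
    have h3 : (g n).num ∣ (n + 2 : ℤ) := by
      rw [h2, ← Rat.divInt_eq_div]
      exact Rat.num_dvd _ hpos.ne'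
    have h4 : ((g n).den : ℤ) ∣ (M * (n + 1) : ℤ) := by
      rw [h2, ← Rat.divInt_eq_div]
      exact Rat.den_dvd _ _
    have h5 : (g n).num.natAbs ≤ n + 2 := by
      have := Nat.le_of_dvd (by positivity) (Int.natAbs_dvd_natAbs.2 h3)
      have e1 : (n + 2 : ℤ).natAbs = n + 2 := by omega
      rwa [e1] at this
    have h6 : (g n).den ≤ M * (n + 1) := by
      have : ((g n).den : ℤ) ≤ (M * (n + 1) : ℤ) := Int.le_of_dvd hpos h4
      exact_mod_cast this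
    rw [hq]
    refine max_le ?_ ?_
    · nlinarith
    · nlinarith
  have hgS : ∀ n ∈ Finset.range (4 * M * N ^ 2 - 1), g n ∈ S := by
    intro n hn
    have hn' := Finset.mem_range.1 hn
    have hpos : (0 : ℚ) < 1 / ((n : ℚ) + 1) := by positivity
    have hle : 1 / ((n : ℚ) + 1) ≤ 1 := by
      rw [div_le_one (by positivity)]
      have : (0 : ℚ) ≤ n := Nat.cast_nonneg n
      linarith
    have h4 : (1 : ℚ) / M < g n := by
      simp only [hg]
      exact (div_lt_div_iff_of_pos_right hM0').2 (by linarith)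
    have h5 : g n ≤ 2 / M := by
      simp only [hg]
      exact (div_le_div_iff_of_pos_right hM0').2 (by linarith)
    have h6 : hq (g n) ≤ T := by
      refine (hgh n).trans ?_
      have h7 : n + 2 ≤ 4 * M * N ^ 2 := by omega
      calc M * (n + 2) ≤ M * (4 * M * N ^ 2) := Nat.mul_le_mul_left _ h7
        _ = T := by rw [hT]; ring
    have h5' : ((g n : ℚ) : ℝ) ≤ 2 / M := by
      have : ((g n : ℚ) : ℝ) ≤ ((2 / M : ℚ) : ℝ) := by exact_mod_cast h5
      simpa using this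
    have h4' : (1 / M : ℝ) ≤ ((g n : ℚ) : ℝ) := by
      have : (((1 : ℚ) / M : ℚ) : ℝ) ≤ ((g n : ℚ) : ℝ) := by exact_mod_cast h4.le
      simpa using this
    have h0 : 0 < g n := lt_trans (by positivity) h4
    refine ⟨h4', h5', h6, ?_⟩
    refine (hall (g n) h0 (lt_of_le_of_lt h5' hMr)).mono ?_
    exact pow_le_pow_left₀ (Nat.cast_nonneg _) (by exact_mod_cast h6) _
  have hcard : 4 * M * N ^ 2 - 1 ≤ S.ncard := by
    have h2 : ((Finset.range (4 * M * N ^ 2 - 1)).image g : Set ℚ) ⊆ S := by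
      intro x hx
      obtain ⟨n, hn, rfl⟩ := Finset.mem_image.1 (Finset.mem_coe.1 hx)
      exact hgS n hn
    have h3 := Set.ncard_le_ncard h2 hfin
    rw [Set.ncard_coe_finset, Finset.card_image_of_injective _ hginj, Finset.card_range] at h3
    exact h3
  have h2 : ((T : ℝ)) ^ (1 / 2 : ℝ) = 2 * M * N := by
    rw [hT]
    push_cast
    rw [← Real.sqrt_eq_rpow, Real.sqrt_sq (by positivity)]
  rw [h2] at h1
  have h3 : (4 * M * N ^ 2 : ℝ) - 1 ≤ S.ncard := by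
    have : 4 * M * N ^ 2 ≤ S.ncard + 1 := by omega
    have h4 : ((4 * M * N ^ 2 : ℕ) : ℝ) ≤ S.ncard + 1 := by exact_mod_cast this
    push_cast at h4
    linarith
  have h5 : C ≤ |C| := le_abs_self C
  have h6 : (1 : ℝ) ≤ N := by exact_mod_cast hN1
  have h6' : (1 : ℝ) ≤ M := by exact_mod_cast hM1
  have hMN : (1 : ℝ) ≤ M * N := by nlinarith
  have h7 : C * (2 * M * N) ≤ |C| * (2 * M * N) := mul_le_mul_of_nonneg_right h5 (by positivity)
  have h8 : |C| * (2 * M * N) ≤ (N - 1) * (2 * M * N) := mul_le_mul_of_nonneg_right (by linarith) (by positivity)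
  nlinarith

/-- the criterion -/
theorem critU {r : ℝ} (hr0 : 0 < r) (hr1 : r ≤ 1) (han : ∀ i, ∀ x : ℝ, 0 < x → x < r → AnalyticAt ℂ (f i) x)
    (hind : ∀ x : ℝ, 0 < x → x < r → LocInd f (x : ℂ)) {C₁ : ℝ} {E D : ℕ} (hC₁ : 1 ≤ C₁)
    (hdata : ∀ q : ℚ, 0 < q → (q : ℝ) < r → HasData Z c (fun k => f k (q : ℂ)) (Y q) (C₁ * (hq q : ℝ) ^ E) D) :
    (AlgebraicIndependent ℚ (Sum.elim Z c) ↔
      ∀ d A : ℕ, ∃ q : ℚ, 0 < q ∧ (q : ℝ) < r ∧ ¬ Relat d ((hq q : ℝ) ^ A) (vals f Y c q)) ∧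
    (AlgebraicIndependent ℚ (Sum.elim Z c) ↔
      ∀ (d A : ℕ) (a b ε : ℝ), 0 < a → b < r → 0 < ε → ∃ C : ℝ, ∀ T : ℕ, 1 ≤ T →
      ({q : ℚ | a ≤ q ∧ (q : ℝ) ≤ b ∧ hq q ≤ T ∧ Relat d ((T : ℝ) ^ A) (vals f Y c q)}.ncard : ℝ) ≤
        C * (T : ℝ) ^ ε) := by
  have h1 : AlgebraicIndependent ℚ (Sum.elim Z c) → ∀ (d A : ℕ) (a b ε : ℝ), 0 < a → b < r → 0 < ε →
      ∃ C : ℝ, ∀ T : ℕ, 1 ≤ T →
      ({q : ℚ | a ≤ q ∧ (q : ℝ) ≤ b ∧ hq q ≤ T ∧ Relat d ((T : ℝ) ^ A) (vals f Y c q)}.ncard : ℝ) ≤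
        C * (T : ℝ) ^ ε := fun hAI d A a b ε ha hb hε => countU han hind hC₁ hdata hAI d A a b ε ha hb hε
  obtain ⟨M, hM⟩ := exists_nat_gt (2 / r)
  have hM0 : (0 : ℝ) < M := lt_trans (by positivity) hM
  have hM1 : 1 ≤ M := by
    have : 0 < M := by exact_mod_cast hM0
    exact this
  have hMr : 2 / (M : ℝ) < r := by
    rw [div_lt_iff₀ hM0]
    rw [div_lt_iff₀ hr0] at hM
    linarith
  have h2 : (∀ (d A : ℕ) (a b ε : ℝ), 0 < a → b < r → 0 < ε → ∃ C : ℝ, ∀ T : ℕ, 1 ≤ T →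
      ({q : ℚ | a ≤ q ∧ (q : ℝ) ≤ b ∧ hq q ≤ T ∧ Relat d ((T : ℝ) ^ A) (vals f Y c q)}.ncard : ℝ) ≤
        C * (T : ℝ) ^ ε) → ∀ d A : ℕ, ∃ q : ℚ, 0 < q ∧ (q : ℝ) < r ∧ ¬ Relat d ((hq q : ℝ) ^ A) (vals f Y c q) := by
    intro h d A
    obtain ⟨C, hC⟩ := h d A (1 / M) (2 / M) (1 / 2) (by positivity) hMr (by norm_num)
    exact exists_unrelatedU hM1 hMr hC
  have h3 : (∀ d A : ℕ, ∃ q : ℚ, 0 < q ∧ (q : ℝ) < r ∧ ¬ Relat d ((hq q : ℝ) ^ A) (vals f Y c q)) →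
      AlgebraicIndependent ℚ (Sum.elim Z c) := by
    intro h
    by_contra hAI
    obtain ⟨d, A, hall⟩ := allrelU hr1 hC₁ hdata hAI
    obtain ⟨q, hq0, hq1, hq2⟩ := h d A
    exact hq2 (hall q hq0 hq1)
  exact ⟨⟨fun h => h2 (h1 h), h3⟩, ⟨h1, fun h => h3 (h2 h)⟩⟩

end

end Pool.Agent.Helper89.AG
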