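import Pool.Agent.Helper89.AG.Ap
import Pool.Agent.Helper89.AG.Crit

set_option autoImplicit false
set_option linter.unusedSectionVars false

/-!
# The criterion for the Apéry families
-/

open MvPolynomial NumberField
open scoped PowerSeries

namespace Pool.Agent.Helper89.AG

open Pool.Agent.Helper8.EI
open Pool.Agent.Y124 (LocInd)
open Pool.Agent.Y120 (HtLe)

/-- the ratio `B_i / A_i` -/
noncomputable def R (i : Fin 2) (z : ℂ) : ℂ := gen (bv i) z / gen (av i) z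

/-- the integrals -/
noncomputable def Jv : Fin 2 → ℝ → ℝ := ![J2, J3]

/-- the constants -/
noncomputable def zv : Fin 2 → ℂ := ![riemannZeta 2, riemannZeta 3]

/-- the ratio `J_i / A_i` -/
noncomputable def Yv (i : Fin 2) (q : ℚ) : ℂ := (Jv i q : ℂ) / gen (av i) (q : ℂ)

theorem z3_eq : ((Pool.Agent.E8helper42.AZ.z3 : ℝ) : ℂ) = riemannZeta 3 := by
  have h0 : riemannZeta 3 = riemannZeta (3 : ℕ) := by norm_num
  rw [h0, zeta_nat_eq_tsum_of_gt_one (by norm_num), Pool.Agent.E8helper42.AZ.z3, Complex.ofReal_tsum]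
  have h := (Complex.summable_one_div_nat_cpow (p := (3 : ℕ))).2 (by norm_num)
  have h1 : Summable fun n : ℕ => 1 / (n : ℂ) ^ 3 := by
    refine h.congr fun n => ?_
    rw [Complex.cpow_natCast]
  rw [h1.tsum_eq_zero_add]
  simp

theorem J_lin (i : Fin 2) {t : ℝ} (ht0 : 0 ≤ t) (ht : t < ra) :
    (Jv i t : ℂ) = zv i * gen (av i) (t : ℂ) - gen (bv i) (t : ℂ) := by
  rw [gen_ofReal, gen_ofReal]
  fin_cases i
  · change ((J2 t : ℝ) : ℂ) = riemannZeta 2 * (genR (av 0) t : ℂ) - (genR (bv 0) t : ℂ)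
    rw [J2_eq ht0 ht, riemannZeta_two]
    push_cast
    ring
  · change ((J3 t : ℝ) : ℂ) = riemannZeta 3 * (genR (av 1) t : ℂ) - (genR (bv 1) t : ℂ)
    rw [J3_eq ht0 ht, ← z3_eq]
    push_cast
    ring

section

variable {κ : Type} [Fintype κ] [DecidableEq κ] {ι : κ → Fin 2}

theorem R_an (i : Fin 2) {z : ℂ} (hz : ‖z‖ < ra) (h0 : gen (av i) z ≠ 0) : AnalyticAt ℂ (R i) z :=
  ((conv_bv i).analyticAt hz).div ((conv_av i).analyticAt hz) h0

theorem R_ind (hι : Function.Injective ι) {z : ℂ} (hz : ‖z‖ < ra) (h0 : ∀ i : κ, gen (av (ι i)) z ≠ 0) :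
    LocInd (𝕜 := ℂ) (fun i => R (ι i)) z :=
  locInd_ratio (fun i => av (ι i)) (fun i => bv (ι i)) (fun i => av_int (ι i)) (fun i => av_zero (ι i))
    (fun P hP => core_bv hι P hP) (fun i => gen (av (ι i))) (fun i => gen (bv (ι i))) (fun i => conv_av (ι i))
    (fun i => conv_bv (ι i)) hz h0

theorem norm_lt {x : ℝ} (h0 : 0 < x) (h1 : x < ra) : ‖(x : ℂ)‖ < ra := by
  rw [Complex.norm_real, Real.norm_of_nonneg h0.le]
  exact h1

theorem data {h : Type} (c : h → ℂ) {q : ℚ} (hq0 : 0 < q) (hq1 : (q : ℝ) < ra) :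
    HasData (fun k : κ => zv (ι k)) c (fun k => R (ι k) (q : ℂ)) (fun k => Yv (ι k) q) (1 * (hq q : ℝ) ^ 0) 0 := by
  have h0 : (0 : ℝ) ≤ q := by exact_mod_cast hq0.le
  refine ⟨fun _ => -1, fun _ => 1, fun _ => 1, fun _ => 0, fun k => ⟨one_ne_zero, one_ne_zero, ?_, ?_, ?_, ?_, ?_, ?_⟩⟩
  · simp
  · simp
  · simp
  · rw [L1_zero]
    simp
  · simp
  · have hJ := J_lin (ι k) h0 hq1
    have hA := gen_av_ne (ι k) h0 hq1
    have e : ((q : ℝ) : ℂ) = (q : ℂ) := by push_cast; rfl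
    rw [e] at hJ hA
    rw [map_zero]
    simp only [Yv, R]
    rw [hJ]
    push_cast
    field_simp
    ring

/-- the criterion for the Apéry families -/
theorem crit_apery (hι : Function.Injective ι) {g : ℕ} (ξ : Fin g → ℂ) :
    (AlgebraicIndependent ℚ (Sum.elim (fun k : κ => zv (ι k)) ξ) ↔
      ∀ d A : ℕ, ∃ q : ℚ, 0 < q ∧ (q : ℝ) < ra ∧
        ¬ Relat d ((hq q : ℝ) ^ A) (vals (fun (k : κ) z => R (ι k) z) (fun q k => Yv (ι k) q) ξ q)) ∧
    (AlgebraicIndependent ℚ (Sum.elim (fun k : κ => zv (ι k)) ξ) ↔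
      ∀ (d A : ℕ) (a b ε : ℝ), 0 < a → b < ra → 0 < ε → ∃ C : ℝ, ∀ T : ℕ, 1 ≤ T →
      ({q : ℚ | a ≤ q ∧ (q : ℝ) ≤ b ∧ hq q ≤ T ∧
        Relat d ((T : ℝ) ^ A) (vals (fun (k : κ) z => R (ι k) z) (fun q k => Yv (ι k) q) ξ q)}.ncard : ℝ) ≤
          C * (T : ℝ) ^ ε) :=
  critU ra_pos (by linarith [ra_lt]) (fun i x h0 h1 => R_an (ι i) (norm_lt h0 h1) (gen_av_ne (ι i) h0.le h1))
    (fun x h0 h1 => R_ind hι (norm_lt h0 h1) fun i => gen_av_ne (ι i) h0.le h1) (C₁ := 1) (E := 0) (D := 0) le_rfl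
    fun q h0 h1 => data ξ h0 h1

theorem Relat_equiv' {σ τ : Type} (e : σ ≃ τ) (d : ℕ) (H : ℝ) (v : τ → ℂ) : Relat d H (v ∘ e) ↔ Relat d H v := by
  have key : ∀ {σ τ : Type} (e : σ ≃ τ) (v : τ → ℂ), Relat d H (v ∘ e) → Relat d H v := by
    rintro σ τ e v ⟨P, h1, h2, h3, h4⟩
    refine ⟨rename e P, ?_, ?_, ?_, ?_⟩
    · intro h0
      exact h1 (rename_injective e e.injective (by rw [h0, map_zero]))
    · exact (totalDegree_rename_le _ _).trans h2
    · intro s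
      have : s = Finsupp.mapDomain e (Finsupp.mapDomain e.symm s) := by
        rw [← Finsupp.mapDomain_comp]
        simp [Finsupp.mapDomain_id]
      rw [this, coeff_rename_mapDomain e e.injective]
      exact h3 _
    · rw [aeval_rename]
      exact h4
  refine ⟨key e v, fun h => ?_⟩
  refine key e.symm (v ∘ e) ?_
  have : (v ∘ e) ∘ e.symm = v := by
    funext t
    simp
  rw [this]
  exact h

end

end Pool.Agent.Helper89.AG
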