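import Mathlib

set_option autoImplicit false

/-!
# Power series with large denominators at primes are algebraically independent over integral power series
-/

open PowerSeries MvPolynomial

namespace Pool.Agent.Helper89.AG

/-- the `p`-integral rational numbers -/
def Op (p : ℕ) [Fact p.Prime] : Subring ℚ where
  carrier := {q | padicNorm p q ≤ 1}
  mul_mem' := by
    intro a b ha hb
    simp only [Set.mem_ofPred_eq] at *
    rw [padicNorm.mul]
    exact mul_le_one₀ ha (padicNorm.nonneg _) hb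
  one_mem' := by simp
  add_mem' := by
    intro a b ha hb
    simp only [Set.mem_ofPred_eq] at *
    exact padicNorm.nonarchimedean.trans (max_le ha hb)
  zero_mem' := by simp
  neg_mem' := by
    intro a ha
    simp only [Set.mem_ofPred_eq] at *
    rwa [padicNorm.neg]

theorem mem_Op {p : ℕ} [Fact p.Prime] {q : ℚ} : q ∈ Op p ↔ padicNorm p q ≤ 1 := Iff.rfl

/-- the embedding of integral power series -/
noncomputable abbrev emb : ℤ⟦X⟧ →+* ℚ⟦X⟧ := PowerSeries.map (Int.castRingHom ℚ)

theorem emb_inj : Function.Injective emb := by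
  intro f g h
  ext n
  have h1 := congrArg (PowerSeries.coeff n) h
  simpa using h1

section

variable {σ : Type} [Fintype σ] [DecidableEq σ]

set_option linter.unusedSectionVars false

/-- Taylor expansion of first order -/
theorem taylor1 (u h : σ → ℚ⟦X⟧) (p : ℕ) (hh : ∀ i, (X : ℚ⟦X⟧) ^ p ∣ h i) (P : MvPolynomial σ ℤ⟦X⟧) :
    ∃ r : ℚ⟦X⟧, (X : ℚ⟦X⟧) ^ (2 * p) ∣ r ∧
      eval₂ emb (fun i => u i - h i) P = eval₂ emb u P - ∑ i, eval₂ emb u (pderiv i P) * h i + r := by
  induction P using MvPolynomial.induction_on with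
  | C a =>
    refine ⟨0, dvd_zero _, ?_⟩
    simp
  | add P Q hP hQ =>
    obtain ⟨r, hr, h1⟩ := hP
    obtain ⟨s, hs, h2⟩ := hQ
    refine ⟨r + s, dvd_add hr hs, ?_⟩
    simp only [eval₂_add, map_add, add_mul, Finset.sum_add_distrib]
    rw [h1, h2]
    ring
  | mul_X P j hP =>
    obtain ⟨r, hr, h1⟩ := hP
    refine ⟨(∑ i, eval₂ emb u (pderiv i P) * h i) * h j + r * (u j - h j), ?_, ?_⟩
    · refine dvd_add ?_ (hr.mul_right _)
      rw [Finset.sum_mul]
      refine Finset.dvd_sum fun i _ => ?_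
      rw [two_mul, pow_add, mul_assoc]
      exact (mul_dvd_mul (hh i) (hh j)).mul_left _
    · have h3 : ∑ i, eval₂ emb u (pderiv i (P * MvPolynomial.X j)) * h i =
          (∑ i, eval₂ emb u (pderiv i P) * h i) * u j + eval₂ emb u P * h j := by
        simp only [pderiv_mul, eval₂_add, eval₂_mul, MvPolynomial.eval₂_X, add_mul, Finset.sum_add_distrib, Finset.sum_mul]
        congr 1
        · exact Finset.sum_congr rfl fun i _ => by ring
        · rw [Finset.sum_eq_single j]
          · simp
          · intro b _ hb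
            rw [pderiv_X_of_ne hb.symm]
            simp
          · intro hj
            exact absurd (Finset.mem_univ j) hj
      rw [h3]
      simp only [eval₂_mul, MvPolynomial.eval₂_X]
      rw [h1]
      ring

/-- the evaluation at `p`-integral power series is `p`-integral -/
theorem eval_Op {p : ℕ} [Fact p.Prime] (S : σ → ℚ⟦X⟧) (hS : ∀ i n, PowerSeries.coeff n (S i) ∈ Op p)
    (P : MvPolynomial σ ℤ⟦X⟧) (n : ℕ) : PowerSeries.coeff n (eval₂ emb S P) ∈ Op p := by
  set S' : σ → (Op p)⟦X⟧ := fun i => PowerSeries.mk fun n => ⟨PowerSeries.coeff n (S i), hS i n⟩ with hS'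
  have h1 : ∀ i, PowerSeries.map (Op p).subtype (S' i) = S i := by
    intro i
    ext n
    simp [hS']
  have h2 : eval₂ emb S P = PowerSeries.map (Op p).subtype
      (eval₂ (PowerSeries.map (Int.castRingHom (Op p))) S' P) := by
    rw [eval₂_comp_left]
    have h3 : (PowerSeries.map (Op p).subtype).comp (PowerSeries.map (Int.castRingHom (Op p))) = emb := by
      refine RingHom.ext fun f => PowerSeries.ext fun n => ?_
      simp
    have h4 : (PowerSeries.map (Op p).subtype) ∘ S' = S := funext h1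
    rw [h3, h4]
  rw [h2, PowerSeries.coeff_map]
  exact Subtype.coe_prop _

/-- a polynomial all of whose partial derivatives vanish is constant -/
theorem eq_C_of_pderiv {P : MvPolynomial σ ℤ⟦X⟧} (h : ∀ i, pderiv i P = 0) : P = MvPolynomial.C (P.coeff 0) := by
  refine MvPolynomial.ext _ _ fun m => ?_
  rw [MvPolynomial.coeff_C]
  split_ifs with hm
  · rw [hm]
  · have hm' : m ≠ 0 := fun h => hm h.symm
    obtain ⟨i, hi⟩ := Finsupp.ne_iff.1 hm'
    have h1 := congrArg (MvPolynomial.coeff (m - Finsupp.single i 1)) (h i)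
    rw [coeff_pderiv, MvPolynomial.coeff_zero] at h1
    have hi1 : 1 ≤ m i := Nat.one_le_iff_ne_zero.2 hi
    have h2 : m - Finsupp.single i 1 + Finsupp.single i 1 = m := by
      ext j
      by_cases hj : j = i
      · subst hj
        simp
        omega
      · simp [Ne.symm hj]
    rw [h2] at h1
    rcases mul_eq_zero.1 h1 with h4 | h4
    · exact h4
    · exfalso
      have h5 : (((m - Finsupp.single i 1 : σ →₀ ℕ) i + 1 : ℕ) : ℤ⟦X⟧) = 0 := by
        push_cast
        exact h4
      have h6 := congrArg (PowerSeries.constantCoeff (R := ℤ)) h5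
      rw [map_natCast, map_zero] at h6
      exact Nat.succ_ne_zero _ (Int.natCast_eq_zero.1 h6)

theorem totalDegree_pderiv_lt {P : MvPolynomial σ ℤ⟦X⟧} {i : σ} (h : pderiv i P ≠ 0) :
    (pderiv i P).totalDegree < P.totalDegree := by
  have h1 : (pderiv i P).totalDegree + 1 ≤ P.totalDegree := by
    obtain ⟨m, hm, hm2⟩ := Finset.exists_mem_eq_sup (pderiv i P).support (MvPolynomial.support_nonempty.2 h)
      (fun s => s.sum fun _ e => e)
    have h2 : (pderiv i P).totalDegree = m.sum fun _ e => e := hm2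
    rw [h2]
    have h3 := MvPolynomial.mem_support_iff.1 hm
    rw [coeff_pderiv] at h3
    have h4 : P.coeff (m + Finsupp.single i 1) ≠ 0 := left_ne_zero_of_mul h3
    have h5 := MvPolynomial.le_totalDegree (MvPolynomial.mem_support_iff.2 h4)
    refine le_trans (le_of_eq ?_) h5
    rw [Finsupp.sum_add_index' (fun _ => rfl) (fun _ _ _ => rfl), Finsupp.sum_single_index rfl]
  omega

/-- rational numbers of small height are units at large primes -/
theorem padicNorm_eq_one {p : ℕ} [hp : Fact p.Prime] {c : ℚ} (hc : c ≠ 0) (h1 : c.num.natAbs < p) (h2 : c.den < p) :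
    padicNorm p c = 1 := by
  have h3 : padicNorm p (c.num : ℚ) = 1 := by
    rw [padicNorm.int_eq_one_iff]
    intro h
    have h4 := Int.natAbs_dvd_natAbs.2 h
    rw [Int.natAbs_natCast] at h4
    have h5 : 0 < c.num.natAbs := Int.natAbs_pos.2 (Rat.num_ne_zero.2 hc)
    exact absurd (Nat.le_of_dvd h5 h4) (by omega)
  have h4 : padicNorm p (c.den : ℚ) = 1 := by
    rw [padicNorm.nat_eq_one_iff]
    intro h
    exact absurd (Nat.le_of_dvd c.den_pos h) (by omega)
  rw [← Rat.num_div_den c, padicNorm.div, h3, h4, div_one]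

/-- the main step: the coefficients at a large prime satisfy a linear relation modulo integral numbers -/
theorem linear_rel (u : σ → ℚ⟦X⟧) (P : MvPolynomial σ ℤ⟦X⟧) (h0 : eval₂ emb u P = 0) (k : ℕ)
    (hk : ∀ i, (X : ℚ⟦X⟧) ^ k ∣ eval₂ emb u (pderiv i P)) {p : ℕ} [hp : Fact p.Prime] (hkp : k < p)
    (hint : ∀ i, ∀ n < p, padicNorm p (PowerSeries.coeff n (u i)) ≤ 1) :
    padicNorm p (∑ i, PowerSeries.coeff k (eval₂ emb u (pderiv i P)) * PowerSeries.coeff p (u i)) ≤ 1 := by
  set S : σ → ℚ⟦X⟧ := fun i => PowerSeries.mk fun n => if n < p then PowerSeries.coeff n (u i) else 0 with hS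
  set h : σ → ℚ⟦X⟧ := fun i => u i - S i with hh
  have hX : ∀ i, (X : ℚ⟦X⟧) ^ p ∣ h i := by
    intro i
    rw [PowerSeries.X_pow_dvd_iff]
    intro m hm
    simp [hh, hS, hm]
  have hhp : ∀ i, PowerSeries.coeff p (h i) = PowerSeries.coeff p (u i) := by
    intro i
    simp [hh, hS]
  obtain ⟨r, hr, h1⟩ := taylor1 u h p hX P
  have h2 : (fun i => u i - h i) = S := by
    funext i
    simp [hh]
  rw [h2, h0, zero_sub] at h1
  have h3 := eval_Op (p := p) S (fun i n => by
    rw [mem_Op]
    simp only [hS, PowerSeries.coeff_mk]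
    split_ifs with hn
    · exact hint i n hn
    · simp) P (p + k)
  have hmul : ∀ (f g : ℚ⟦X⟧), (X : ℚ⟦X⟧) ^ k ∣ f → (X : ℚ⟦X⟧) ^ p ∣ g →
      PowerSeries.coeff (p + k) (f * g) = PowerSeries.coeff k f * PowerSeries.coeff p g := by
    rintro _ _ ⟨f, rfl⟩ ⟨g, rfl⟩
    have e1 : (X : ℚ⟦X⟧) ^ k * f * ((X : ℚ⟦X⟧) ^ p * g) = (X : ℚ⟦X⟧) ^ (p + k) * (f * g) := by ring
    have e2 : PowerSeries.coeff (p + k) ((X : ℚ⟦X⟧) ^ (p + k) * (f * g)) = PowerSeries.coeff 0 (f * g) := by
      have := PowerSeries.coeff_X_pow_mul (f * g) (p + k) 0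
      rwa [zero_add] at this
    have e3 : PowerSeries.coeff k ((X : ℚ⟦X⟧) ^ k * f) = PowerSeries.coeff 0 f := by
      have := PowerSeries.coeff_X_pow_mul f k 0
      rwa [zero_add] at this
    have e4 : PowerSeries.coeff p ((X : ℚ⟦X⟧) ^ p * g) = PowerSeries.coeff 0 g := by
      have := PowerSeries.coeff_X_pow_mul g p 0
      rwa [zero_add] at this
    rw [e1, e2, e3, e4]
    simp
  have hr0 : PowerSeries.coeff (p + k) r = 0 := by
    rw [PowerSeries.X_pow_dvd_iff] at hr
    exact hr _ (by omega)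
  rw [h1, map_add, map_neg, map_sum, hr0, add_zero, mem_Op, padicNorm.neg] at h3
  have h4 : ∑ i, PowerSeries.coeff (p + k) (eval₂ emb u (pderiv i P) * h i) =
      ∑ i, PowerSeries.coeff k (eval₂ emb u (pderiv i P)) * PowerSeries.coeff p (u i) :=
    Finset.sum_congr rfl fun i _ => by rw [hmul _ _ (hk i) (hX i), hhp]
  rwa [h4] at h3

/-- Power series `u_i` with `p`-integral coefficients below each large prime `p` and with coefficients of order exactly
`-k_i` at `p`, the `k_i > 0` being different, are algebraically independent over the integral power series. -/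
theorem core (u : σ → ℚ⟦X⟧) (N : ℕ) (k : σ → ℕ) (hk : Function.Injective k) (hk1 : ∀ i, 1 ≤ k i)
    (hint : ∀ p : ℕ, [Fact p.Prime] → N ≤ p → ∀ i, ∀ n < p, padicNorm p (PowerSeries.coeff n (u i)) ≤ 1)
    (hpole : ∀ p : ℕ, [Fact p.Prime] → N ≤ p → ∀ i, padicNorm p (PowerSeries.coeff p (u i)) = (p : ℚ) ^ k i)
    (P : MvPolynomial σ ℤ⟦X⟧) (h0 : eval₂ emb u P = 0) : P = 0 := by
  induction hn : P.totalDegree using Nat.strong_induction_on generalizing P with
  | _ n ih =>
  subst hn
  by_contra hP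
  by_cases hc : ∀ i, pderiv i P = 0
  · have h1 := eq_C_of_pderiv hc
    rw [h1, MvPolynomial.eval₂_C] at h0
    have h2 : P.coeff 0 = 0 := emb_inj (by rw [h0, map_zero])
    rw [h2, map_zero] at h1
    exact hP h1
  · push Not at hc
    obtain ⟨i₀, hi₀⟩ := hc
    have hD : ∀ i, pderiv i P ≠ 0 → eval₂ emb u (pderiv i P) ≠ 0 := fun i hi h =>
      hi (ih _ (totalDegree_pderiv_lt hi) _ h rfl)
    -- the smallest order
    have hex : ∃ m, ∃ i, PowerSeries.coeff m (eval₂ emb u (pderiv i P)) ≠ 0 := by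
      obtain ⟨m, hm⟩ := PowerSeries.exists_coeff_ne_zero_iff_ne_zero.2 (hD i₀ hi₀)
      exact ⟨m, i₀, hm⟩
    classical
    set m := Nat.find hex with hm
    obtain ⟨i₁, hi₁⟩ := Nat.find_spec hex
    have hdvd : ∀ i, (X : ℚ⟦X⟧) ^ m ∣ eval₂ emb u (pderiv i P) := by
      intro i
      rw [PowerSeries.X_pow_dvd_iff]
      intro l hl
      by_contra hne
      exact Nat.find_min hex hl ⟨i, hne⟩
    set c : σ → ℚ := fun i => PowerSeries.coeff m (eval₂ emb u (pderiv i P)) with hcdef
    -- the largest pole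
    obtain ⟨j, hj, hjmax⟩ := Finset.exists_max_image (Finset.univ.filter fun i => c i ≠ 0) k
      ⟨i₁, Finset.mem_filter.2 ⟨Finset.mem_univ _, hi₁⟩⟩
    have hcj : c j ≠ 0 := (Finset.mem_filter.1 hj).2
    obtain ⟨p, hpge, hp⟩ := Nat.exists_infinite_primes (N + m + 2 + ∑ i, ((c i).num.natAbs + (c i).den))
    have : Fact p.Prime := ⟨hp⟩
    have hle : ∀ i, (c i).num.natAbs + (c i).den ≤ ∑ i, ((c i).num.natAbs + (c i).den) := fun i =>
      Finset.single_le_sum (f := fun i => (c i).num.natAbs + (c i).den) (fun _ _ => Nat.zero_le _) (Finset.mem_univ i)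
    have hunit : ∀ i, c i ≠ 0 → padicNorm p (c i) = 1 := fun i hi =>
      padicNorm_eq_one hi (by have := hle i; omega) (by have := hle i; omega)
    have hrel := linear_rel u P h0 m hdvd (p := p) (by omega) (hint p (by omega))
    have hp1 : (1 : ℚ) < p := by exact_mod_cast hp.one_lt
    have hterm : ∀ i, i ≠ j → padicNorm p (c i * PowerSeries.coeff p (u i)) < (p : ℚ) ^ k j := by
      intro i hij
      by_cases hi : c i = 0
      · rw [hi, zero_mul, padicNorm.zero]
        positivity
      · rw [padicNorm.mul, hunit i hi, one_mul, hpole p (by omega) i]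
        refine pow_lt_pow_right₀ hp1 (lt_of_le_of_ne (hjmax i (Finset.mem_filter.2 ⟨Finset.mem_univ _, hi⟩)) fun h => ?_)
        exact hij (hk h)
    have hj1 : padicNorm p (c j * PowerSeries.coeff p (u j)) = (p : ℚ) ^ k j := by
      rw [padicNorm.mul, hunit j hcj, one_mul, hpole p (by omega) j]
    have hsum : ∑ i, c i * PowerSeries.coeff p (u i) =
        c j * PowerSeries.coeff p (u j) + ∑ i ∈ Finset.univ.erase j, c i * PowerSeries.coeff p (u i) :=
      (Finset.add_sum_erase _ _ (Finset.mem_univ j)).symm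
    have hrest : padicNorm p (∑ i ∈ Finset.univ.erase j, c i * PowerSeries.coeff p (u i)) < (p : ℚ) ^ k j :=
      padicNorm.sum_lt' (fun i hi => hterm i (Finset.ne_of_mem_erase hi)) (by positivity)
    have hgt : (1 : ℚ) < (p : ℚ) ^ k j := one_lt_pow₀ hp1 (by have := hk1 j; omega)
    have hfin : padicNorm p (∑ i, c i * PowerSeries.coeff p (u i)) = (p : ℚ) ^ k j := by
      rw [hsum, padicNorm.add_eq_max_of_ne (by rw [hj1]; exact hrest.ne'), hj1]
      exact max_eq_left hrest.le
    rw [hfin] at hrel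
    linarith

end

end Pool.Agent.Helper89.AG
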