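import Pool.Agent.Helper89.AG.Pow

set_option autoImplicit false
set_option linter.unusedSectionVars false

/-!
# Ratios of power series, complex coefficients
-/

open PowerSeries MvPolynomial

namespace Pool.Agent.Helper89.AG

section

variable {κ : Type} [Fintype κ] [DecidableEq κ]

/-- the monomial `X ^ m none * ∏ B_i ^ m_i A_i ^ (d - m_i)` -/
noncomputable def mono (a b : κ → ℕ → ℚ) (d : ℕ) (m : Option κ →₀ ℕ) : ℚ⟦X⟧ :=
  (PowerSeries.X : ℚ⟦X⟧) ^ m none * ∏ i, ((PowerSeries.mk (b i)) ^ m (some i) * (PowerSeries.mk (a i)) ^ (d - m (some i)))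

theorem option_ext {m m' : Option κ →₀ ℕ} (h0 : m none = m' none) (h1 : m.some = m'.some) : m = m' := by
  ext o
  rcases o with _ | i
  · exact h0
  · have := DFunLike.congr_fun h1 i
    simpa using this

theorem ratio_int (a b : κ → ℕ → ℚ) (haz : ∀ i n, ∃ z : ℤ, a i n = z) (ha0 : ∀ i, a i 0 = 1)
    (hcore : ∀ P : MvPolynomial κ ℤ⟦X⟧, eval₂ emb (fun i => PowerSeries.mk (b i)) P = 0 → P = 0)
    (d : ℕ) (s : Finset (Option κ →₀ ℕ)) (z : (Option κ →₀ ℕ) → ℤ)
    (h : ∑ m ∈ s, PowerSeries.C ((z m : ℤ) : ℚ) * mono a b d m = 0) : ∀ m ∈ s, z m = 0 := by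
  choose az haz using haz
  set FA : κ → ℤ⟦X⟧ := fun i => PowerSeries.mk (az i) with hFA
  have hFA1 : ∀ i, emb (FA i) = PowerSeries.mk (a i) := by
    intro i
    refine PowerSeries.ext fun n => ?_
    simp [hFA, haz]
  have hFA0 : ∀ i, FA i ≠ 0 := by
    intro i h0
    have h1 := hFA1 i
    rw [h0, map_zero] at h1
    have h2 := congrArg (PowerSeries.coeff 0) h1
    simp [ha0] at h2
  set w : (Option κ →₀ ℕ) → ℤ⟦X⟧ := fun m => ∏ i, FA i ^ (d - m (some i)) with hw
  have hw0 : ∀ m, w m ≠ 0 := fun m => Finset.prod_ne_zero_iff.2 fun i _ => pow_ne_zero _ (hFA0 i)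
  set Q : MvPolynomial κ ℤ⟦X⟧ := ∑ m ∈ s, MvPolynomial.monomial m.some (PowerSeries.C (z m) *
    (PowerSeries.X : ℤ⟦X⟧) ^ m none * w m) with hQ
  have hQ0 : Q = 0 := by
    apply hcore
    rw [hQ, eval₂_sum, ← h]
    refine Finset.sum_congr rfl fun m _ => ?_
    rw [eval₂_monomial, mono, map_mul, map_mul, map_pow, PowerSeries.map_C, PowerSeries.map_X, hw, map_prod,
      Finset.prod_mul_distrib, Finsupp.prod_fintype _ _ (fun i => pow_zero _)]
    have e1 : ∏ i, emb (FA i ^ (d - m (some i))) = ∏ i, (PowerSeries.mk (a i)) ^ (d - m (some i)) :=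
      Finset.prod_congr rfl fun i _ => by rw [map_pow, hFA1]
    have e2 : ∏ i, (PowerSeries.mk (b i)) ^ (m.some i) = ∏ i, (PowerSeries.mk (b i)) ^ (m (some i)) :=
      Finset.prod_congr rfl fun i _ => by rw [Finsupp.some_apply]
    rw [e1, e2, eq_intCast]
    ring
  intro m hm
  have h1 := congrArg (MvPolynomial.coeff m.some) hQ0
  rw [hQ, MvPolynomial.coeff_sum, MvPolynomial.coeff_zero] at h1
  have h2 : ∑ m' ∈ s, MvPolynomial.coeff m.some (MvPolynomial.monomial m'.some (PowerSeries.C (z m') *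
      (PowerSeries.X : ℤ⟦X⟧) ^ m' none * w m')) =
      (∑ m' ∈ s.filter (fun m' => m'.some = m.some), PowerSeries.C (z m') * (PowerSeries.X : ℤ⟦X⟧) ^ m' none) * w m := by
    rw [Finset.sum_mul, Finset.sum_filter]
    refine Finset.sum_congr rfl fun m' _ => ?_
    rw [MvPolynomial.coeff_monomial]
    split_ifs with h3
    · have h4 : w m' = w m := by
        simp only [hw]
        refine Finset.prod_congr rfl fun i _ => ?_
        have := DFunLike.congr_fun h3 i
        rw [Finsupp.some_apply, Finsupp.some_apply] at this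
        rw [this]
      rw [h4]
    · rfl
  rw [h2] at h1
  have h3 := (mul_eq_zero.1 h1).resolve_right (hw0 m)
  have h4 := congrArg (PowerSeries.coeff (m none)) h3
  rw [map_sum, map_zero, Finset.sum_eq_single m] at h4
  · rw [PowerSeries.coeff_C_mul, PowerSeries.coeff_X_pow, if_pos rfl, mul_one] at h4
    exact h4
  · intro m' hm' hne
    have h5 : m'.some = m.some := (Finset.mem_filter.1 hm').2
    have h6 : m none ≠ m' none := fun h => hne (option_ext h.symm h5)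
    rw [PowerSeries.coeff_C_mul, PowerSeries.coeff_X_pow, if_neg h6, mul_zero]
  · intro h5
    refine absurd ?_ h5
    rw [Finset.mem_filter]
    exact ⟨hm, rfl⟩

theorem ratio_rat (a b : κ → ℕ → ℚ) (haz : ∀ i n, ∃ z : ℤ, a i n = z) (ha0 : ∀ i, a i 0 = 1)
    (hcore : ∀ P : MvPolynomial κ ℤ⟦X⟧, eval₂ emb (fun i => PowerSeries.mk (b i)) P = 0 → P = 0)
    (d : ℕ) (s : Finset (Option κ →₀ ℕ)) (q : (Option κ →₀ ℕ) → ℚ)
    (h : ∑ m ∈ s, PowerSeries.C (q m) * mono a b d m = 0) : ∀ m ∈ s, q m = 0 := by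
  obtain ⟨N, hN⟩ := IsLocalization.exist_integer_multiples_of_finset (nonZeroDivisors ℤ) (s.image q)
  have hN0 : (N : ℤ) ≠ 0 := nonZeroDivisors.ne_zero N.2
  have hint : ∀ m, ∃ z : ℤ, m ∈ s → (z : ℚ) = (N : ℤ) * q m := by
    intro m
    by_cases hs : m ∈ s
    · obtain ⟨z, hz⟩ := hN (q m) (Finset.mem_image_of_mem _ hs)
      refine ⟨z, fun _ => ?_⟩
      rw [← eq_intCast (algebraMap ℤ ℚ) z, hz, zsmul_eq_mul]
    · exact ⟨0, fun h => absurd h hs⟩
  choose z hz using hint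
  have h1 : ∑ m ∈ s, PowerSeries.C ((z m : ℤ) : ℚ) * mono a b d m = 0 := by
    have h2 : ∑ m ∈ s, PowerSeries.C ((z m : ℤ) : ℚ) * mono a b d m =
        PowerSeries.C (((N : ℤ) : ℚ)) * ∑ m ∈ s, PowerSeries.C (q m) * mono a b d m := by
      rw [Finset.mul_sum]
      refine Finset.sum_congr rfl fun m hm => ?_
      rw [hz m hm, map_mul, mul_assoc]
    rw [h2, h, mul_zero]
  intro m hm
  have h2 := ratio_int a b haz ha0 hcore d s z h1 m hm
  have h3 := hz m hm
  rw [h2, Int.cast_zero] at h3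
  have h4 : ((N : ℤ) : ℚ) ≠ 0 := by exact_mod_cast hN0
  exact (mul_eq_zero.1 h3.symm).resolve_left h4

theorem ratio_complex (a b : κ → ℕ → ℚ) (haz : ∀ i n, ∃ z : ℤ, a i n = z) (ha0 : ∀ i, a i 0 = 1)
    (hcore : ∀ P : MvPolynomial κ ℤ⟦X⟧, eval₂ emb (fun i => PowerSeries.mk (b i)) P = 0 → P = 0)
    (d : ℕ) (s : Finset (Option κ →₀ ℕ)) (c : (Option κ →₀ ℕ) → ℂ)
    (h : ∑ m ∈ s, PowerSeries.C (c m) * PowerSeries.map (algebraMap ℚ ℂ) (mono a b d m) = 0) :
    ∀ m ∈ s, c m = 0 := by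
  intro m hm
  rw [← Module.forall_dual_apply_eq_zero_iff ℚ (c m)]
  intro φ
  refine ratio_rat a b haz ha0 hcore d s (fun m => φ (c m)) ?_ m hm
  refine PowerSeries.ext fun n => ?_
  have h1 := congrArg (PowerSeries.coeff n) h
  rw [map_sum, map_zero] at h1 ⊢
  have h2 := congrArg φ h1
  rw [map_sum, map_zero] at h2
  rw [← h2]
  refine Finset.sum_congr rfl fun m _ => ?_
  rw [PowerSeries.coeff_C_mul, PowerSeries.coeff_C_mul, PowerSeries.coeff_map, mul_comm (c m),
    ← Algebra.smul_def, map_smul, smul_eq_mul, mul_comm]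

end

end Pool.Agent.Helper89.AG
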