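import Pool.Agent.Helper89.AG.Pow

set_option autoImplicit false
set_option linter.unusedSectionVars false

/-!
# Three-term recurrences: denominators at primes, growth
-/

namespace Pool.Agent.Helper89.AG

/-- the recurrence `(n + 2)^s u_{n+2} = P(n) u_{n+1} + e (n + 1)^s u_n` -/
def Rec (s : ℕ) (P : ℕ → ℤ) (e : ℤ) (u : ℕ → ℚ) : Prop :=
  ∀ n : ℕ, ((n : ℚ) + 2) ^ s * u (n + 2) = P n * u (n + 1) + e * ((n : ℚ) + 1) ^ s * u n

section

variable {s : ℕ} {P : ℕ → ℤ} {e : ℤ} {a b : ℕ → ℚ}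

theorem Rec.eq (ha : Rec s P e a) (hb : Rec s P e b) (h0 : a 0 = b 0) (h1 : a 1 = b 1) : ∀ n, a n = b n := by
  intro n
  induction n using Nat.strong_induction_on with
  | _ n ih =>
    match n, ih with
    | 0, _ => exact h0
    | 1, _ => exact h1
    | n + 2, ih =>
      have h2 := ha n
      have h3 := hb n
      rw [ih n (by omega), ih (n + 1) (by omega), ← h3] at h2
      have h4 : ((n : ℚ) + 2) ^ s ≠ 0 := by positivity
      exact mul_left_cancel₀ h4 h2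

/-- the Casoratian -/
theorem Rec.casoratian (ha : Rec s P e a) (hb : Rec s P e b) (n : ℕ) :
    ((n : ℚ) + 1) ^ s * (b (n + 1) * a n - a (n + 1) * b n) = (-e : ℚ) ^ n * (b 1 * a 0 - a 1 * b 0) := by
  induction n with
  | zero => simp
  | succ n ih =>
    have h1 := ha n
    have h2 := hb n
    push_cast
    rw [pow_succ, mul_comm ((-e : ℚ) ^ n), mul_assoc, ← ih]
    have e1 : (n : ℚ) + 1 + 1 = n + 2 := by ring
    rw [e1]
    linear_combination a (n + 1) * h2 - b (n + 1) * h1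

theorem padicNorm_natpow {p : ℕ} [hp : Fact p.Prime] {m : ℕ} (h0 : 0 < m) (hm : m < p) (s : ℕ) :
    padicNorm p ((m : ℚ) ^ s) = 1 := by
  induction s with
  | zero => simp
  | succ s ih =>
    rw [pow_succ, padicNorm.mul, ih, one_mul, padicNorm.nat_eq_one_iff]
    intro h
    exact absurd (Nat.le_of_dvd h0 h) (by omega)

theorem padicNorm_ppow {p : ℕ} [hp : Fact p.Prime] (s : ℕ) : padicNorm p ((p : ℚ) ^ s) = ((p : ℚ) ^ s)⁻¹ := by
  induction s with
  | zero => simp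
  | succ s ih =>
    rw [pow_succ, padicNorm.mul, ih, padicNorm.padicNorm_p_of_prime, ← mul_inv]

theorem Rec.rhs {p : ℕ} [hp : Fact p.Prime] {n : ℕ} (h0 : padicNorm p (b n) ≤ 1)
    (h1 : padicNorm p (b (n + 1)) ≤ 1) : padicNorm p (P n * b (n + 1) + e * ((n : ℚ) + 1) ^ s * b n) ≤ 1 := by
  refine padicNorm.nonarchimedean.trans (max_le ?_ ?_)
  · rw [padicNorm.mul]
    exact mul_le_one₀ (padicNorm.of_int _) (padicNorm.nonneg _) h1
  · rw [padicNorm.mul]
    refine mul_le_one₀ ?_ (padicNorm.nonneg _) h0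
    have : ((e : ℚ) * ((n : ℚ) + 1) ^ s) = ((e * ((n : ℤ) + 1) ^ s : ℤ) : ℚ) := by push_cast; ring
    rw [this]
    exact padicNorm.of_int _

/-- integrality below `p` -/
theorem Rec.int_below (hb : Rec s P e b) {p : ℕ} [hp : Fact p.Prime] (h0 : padicNorm p (b 0) ≤ 1)
    (h1 : padicNorm p (b 1) ≤ 1) : ∀ n < p, padicNorm p (b n) ≤ 1 := by
  intro n
  induction n using Nat.strong_induction_on with
  | _ n ih =>
    match n, ih with
    | 0, _ => exact fun _ => h0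
    | 1, _ => exact fun _ => h1
    | n + 2, ih =>
      intro hn
      have h2 := hb n
      have h3 := congrArg (padicNorm p) h2
      have e1 : ((n : ℚ) + 2) = ((n + 2 : ℕ) : ℚ) := by push_cast; ring
      rw [e1, padicNorm.mul, padicNorm_natpow (by omega) hn, one_mul] at h3
      rw [h3]
      exact Rec.rhs (ih n (by omega) (by omega)) (ih (n + 1) (by omega) (by omega))

/-- the exact order at `p` -/
theorem Rec.pole (hs : 1 ≤ s) (he : e = 1 ∨ e = -1) (ha : Rec s P e a) (hb : Rec s P e b) (haz : ∀ n, ∃ z : ℤ, a n = z)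
    (ha0 : a 0 = 1) (hb0 : b 0 = 0) {β : ℤ} (hb1 : b 1 = β) {p : ℕ} [hp : Fact p.Prime] (hpβ : ¬ (p : ℤ) ∣ β) :
    padicNorm p (b p) = (p : ℚ) ^ s := by
  have hai : ∀ n, padicNorm p (a n) ≤ 1 := by
    intro n
    obtain ⟨z, hz⟩ := haz n
    rw [hz]
    exact padicNorm.of_int z
  have hbl := hb.int_below (p := p) (by rw [hb0]; simp) (by rw [hb1]; exact padicNorm.of_int β)
  have hp2 := hp.out.two_le
  have hp1 : (1 : ℚ) < p := by exact_mod_cast hp.out.one_lt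
  have hps : (1 : ℚ) < (p : ℚ) ^ s := one_lt_pow₀ hp1 (by omega)
  obtain ⟨n, rfl⟩ : ∃ n, p = n + 2 := ⟨p - 2, by omega⟩
  -- upper bound
  have hup : padicNorm (n + 2) (b (n + 2)) ≤ ((n + 2 : ℕ) : ℚ) ^ s := by
    have h3 := congrArg (padicNorm (n + 2)) (hb n)
    have e1 : ((n : ℚ) + 2) = ((n + 2 : ℕ) : ℚ) := by push_cast; ring
    rw [e1, padicNorm.mul, padicNorm_ppow] at h3
    have h4 := Rec.rhs (P := P) (e := e) (s := s) (hbl n (by omega)) (hbl (n + 1) (by omega))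
    rw [← h3, inv_mul_le_iff₀ (by positivity), mul_one] at h4
    exact h4
  -- lower bound
  have hlow : ((n + 2 : ℕ) : ℚ) ^ s ≤ padicNorm (n + 2) (b (n + 2)) := by
    have h3 := ha.casoratian hb (n + 1)
    rw [ha0, hb0, mul_one, mul_zero, sub_zero, hb1] at h3
    have h4 := congrArg (padicNorm (n + 2)) h3
    have e1 : (((n + 1 : ℕ) : ℚ) + 1) = ((n + 2 : ℕ) : ℚ) := by push_cast; ring
    have e2 : padicNorm (n + 2) ((-e : ℚ) ^ (n + 1) * β) = 1 := by
      rw [padicNorm.mul]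
      have e3 : padicNorm (n + 2) ((-e : ℚ) ^ (n + 1)) = 1 := by
        rcases he with rfl | rfl
        · push_cast
          rcases neg_one_pow_eq_or ℚ (n + 1) with h | h
          · rw [h]; simp
          · rw [h]; simp
        · simp
      rw [e3, one_mul]
      exact (padicNorm.int_eq_one_iff β).2 hpβ
    rw [e1, e2, padicNorm.mul, padicNorm_ppow, inv_mul_eq_one₀ (by positivity)] at h4
    have h5 : padicNorm (n + 2) (a (n + 1 + 1) * b (n + 1)) ≤ 1 := by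
      rw [padicNorm.mul]
      exact mul_le_one₀ (hai _) (padicNorm.nonneg _) (hbl _ (by omega))
    have h6 : padicNorm (n + 2) (b (n + 1 + 1) * a (n + 1)) = ((n + 2 : ℕ) : ℚ) ^ s := by
      have e4 : b (n + 1 + 1) * a (n + 1) = (b (n + 1 + 1) * a (n + 1) - a (n + 1 + 1) * b (n + 1)) +
          a (n + 1 + 1) * b (n + 1) := by ring
      rw [e4, padicNorm.add_eq_max_of_ne (by rw [← h4]; exact (lt_of_le_of_lt h5 hps).ne'), ← h4]
      exact max_eq_left (h5.trans hps.le)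
    rw [padicNorm.mul] at h6
    rw [← h6]
    exact mul_le_of_le_one_right (padicNorm.nonneg _) (hai _)
  exact le_antisymm hup hlow

end

/-! ### growth -/

/-- growth for `ζ(3)` -/
theorem growth3 {u : ℕ → ℚ} (hu : Rec 3 (fun n => 34 * ((n : ℤ) + 1) ^ 3 + 51 * ((n : ℤ) + 1) ^ 2 + 27 * ((n : ℤ) + 1) + 5)
    (-1) u) {α : ℝ} (hα : α ^ 2 - 34 * α + 1 = 0) (hα1 : 17 ≤ α) {n₀ : ℕ}
    (h0 : 0 ≤ (u n₀ : ℝ) ∧ (u n₀ : ℝ) ≤ u (n₀ + 1) ∧ (u (n₀ + 1) : ℝ) ≤ α * u n₀) :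
    ∀ n, 0 ≤ (u (n₀ + n) : ℝ) ∧ (u (n₀ + n) : ℝ) ≤ u (n₀ + n + 1) ∧ (u (n₀ + n + 1) : ℝ) ≤ α * u (n₀ + n) := by
  intro n
  induction n with
  | zero => simpa using h0
  | succ n ih =>
    obtain ⟨h1, h2, h3⟩ := ih
    have h4 := hu (n₀ + n)
    have h5 : (((n₀ + n : ℕ) : ℝ) + 2) ^ 3 * u (n₀ + n + 2) = (34 * (((n₀ + n : ℕ) : ℝ) + 1) ^ 3 +
        51 * (((n₀ + n : ℕ) : ℝ) + 1) ^ 2 + 27 * (((n₀ + n : ℕ) : ℝ) + 1) + 5) * u (n₀ + n + 1) -
        (((n₀ + n : ℕ) : ℝ) + 1) ^ 3 * u (n₀ + n) := by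
      have h6 : ((((n₀ + n : ℕ) : ℚ) + 2) ^ 3 * u (n₀ + n + 2) : ℚ) = ((34 * (((n₀ + n : ℕ) : ℚ) + 1) ^ 3 +
        51 * (((n₀ + n : ℕ) : ℚ) + 1) ^ 2 + 27 * (((n₀ + n : ℕ) : ℚ) + 1) + 5) * u (n₀ + n + 1) -
        (((n₀ + n : ℕ) : ℚ) + 1) ^ 3 * u (n₀ + n) : ℚ) := by
        rw [h4]
        push_cast
        ring
      exact_mod_cast h6
    have e1 : n₀ + (n + 1) = n₀ + n + 1 := by ring
    rw [e1]
    set N : ℝ := ((n₀ + n : ℕ) : ℝ) + 1 with hN
    have hN1 : 1 ≤ N := by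
      have : (0 : ℝ) ≤ ((n₀ + n : ℕ) : ℝ) := Nat.cast_nonneg _
      linarith
    have e2 : ((n₀ + n : ℕ) : ℝ) + 2 = N + 1 := by rw [hN]; ring
    rw [e2] at h5
    set x := (u (n₀ + n) : ℝ)
    set y := (u (n₀ + n + 1) : ℝ)
    set w := (u (n₀ + n + 2) : ℝ) with hw
    have hy0 : 0 ≤ y := h1.trans h2
    have hN3 : 0 < (N + 1) ^ 3 := by positivity
    have hN3' : 0 ≤ N ^ 3 := by positivity
    have hα0 : 0 < α := by linarith
    refine ⟨hy0, ?_, ?_⟩
    · -- lower bound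
      have h6 : (N + 1) ^ 3 * y ≤ (N + 1) ^ 3 * w := by
        rw [h5]
        have h7 : N ^ 3 * x ≤ N ^ 3 * y := mul_le_mul_of_nonneg_left h2 hN3'
        have h8 : 0 ≤ (32 * N ^ 3 + 48 * N ^ 2 + 24 * N + 4) * y := by positivity
        nlinarith
      exact le_of_mul_le_mul_left h6 hN3
    · have h6 : (N + 1) ^ 3 * w ≤ (N + 1) ^ 3 * (α * y) := by
        rw [h5]
        have h7 : (34 - α) * y ≤ x := by
          have h8 : α * ((34 - α) * y) ≤ α * x := by
            have : α * ((34 - α) * y) = y := by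
              have : α * (34 - α) = 1 := by linarith
              rw [← mul_assoc, this, one_mul]
            rw [this]
            exact h3
          exact le_of_mul_le_mul_left h8 hα0
        have h8 : N ^ 3 * ((34 - α) * y) ≤ N ^ 3 * x := mul_le_mul_of_nonneg_left h7 hN3'
        have h9 : 0 ≤ ((3 * α - 51) * N ^ 2 + (3 * α - 27) * N + (α - 5)) * y := by
          refine mul_nonneg ?_ hy0
          have a1 : 0 ≤ (3 * α - 51) * N ^ 2 := mul_nonneg (by linarith) (by positivity)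
          have a2 : 0 ≤ (3 * α - 27) * N := mul_nonneg (by linarith) (by linarith)
          linarith
        nlinarith
      exact le_of_mul_le_mul_left h6 hN3

/-- growth for `ζ(2)` -/
theorem growth2 {u : ℕ → ℚ} (hu : Rec 2 (fun n => -(11 * ((n : ℤ) + 1) ^ 2 + 11 * ((n : ℤ) + 1) + 3)) 1 u)
    (h0 : |(u 0 : ℝ)| ≤ 1) (h1 : |(u 1 : ℝ)| ≤ 12) : ∀ n, |(u n : ℝ)| ≤ 12 ^ n := by
  intro n
  induction n using Nat.strong_induction_on with
  | _ n ih =>
    match n, ih with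
    | 0, _ => simpa using h0
    | 1, _ => simpa using h1
    | n + 2, ih =>
      have h4 := hu n
      have h5 : ((n : ℝ) + 2) ^ 2 * u (n + 2) = -(11 * ((n : ℝ) + 1) ^ 2 + 11 * ((n : ℝ) + 1) + 3) * u (n + 1) +
          ((n : ℝ) + 1) ^ 2 * u n := by
        have h6 : (((n : ℚ) + 2) ^ 2 * u (n + 2) : ℚ) = (-(11 * ((n : ℚ) + 1) ^ 2 + 11 * ((n : ℚ) + 1) + 3) * u (n + 1) +
          ((n : ℚ) + 1) ^ 2 * u n : ℚ) := by
          rw [h4]
          push_cast
          ring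
        exact_mod_cast h6
      have a0 := ih n (by omega)
      have a1 := ih (n + 1) (by omega)
      set N : ℝ := (n : ℝ) + 1 with hN
      have hN1 : 1 ≤ N := by
        have : (0 : ℝ) ≤ (n : ℝ) := Nat.cast_nonneg _
        linarith
      have e2 : (n : ℝ) + 2 = N + 1 := by rw [hN]; ring
      rw [e2] at h5
      have hpos : 0 < (N + 1) ^ 2 := by positivity
      have hc : 0 ≤ 11 * N ^ 2 + 11 * N + 3 := by positivity
      have h6 : (N + 1) ^ 2 * |(u (n + 2) : ℝ)| ≤ (N + 1) ^ 2 * 12 ^ (n + 2) := by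
        rw [← abs_of_pos hpos, ← abs_mul, h5]
        refine (abs_add_le _ _).trans ?_
        rw [abs_mul, abs_mul, abs_neg, abs_of_nonneg hc, abs_of_nonneg (by positivity : (0 : ℝ) ≤ N ^ 2), abs_of_pos hpos]
        have b1 : (11 * N ^ 2 + 11 * N + 3) * |(u (n + 1) : ℝ)| ≤ (11 * N ^ 2 + 11 * N + 3) * 12 ^ (n + 1) :=
          mul_le_mul_of_nonneg_left a1 hc
        have b2 : N ^ 2 * |(u n : ℝ)| ≤ N ^ 2 * 12 ^ n := mul_le_mul_of_nonneg_left a0 (by positivity)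
        have h12 : (0 : ℝ) < 12 ^ n := by positivity
        have e3 : (12 : ℝ) ^ (n + 1) = 12 * 12 ^ n := by rw [pow_succ]; ring
        have e4 : (12 : ℝ) ^ (n + 2) = 144 * 12 ^ n := by rw [pow_succ, pow_succ]; ring
        rw [e3] at b1
        rw [e4]
        have b3 : 0 ≤ (11 * N ^ 2 + 156 * N + 108) * (12 : ℝ) ^ n := by positivity
        nlinarith
      exact le_of_mul_le_mul_left h6 hpos

end Pool.Agent.Helper89.AG
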